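import Mathlib

/-!
# The Hellinger content of a measure on `[0, 1]` through Bernstein polynomials

For a finite measure `μ` on `[0, 1]` the sums `∑_k (μ(b_{k,N}) / (N + 1))^{1/2}`, `b_{k,N}` the Bernstein
polynomials, decrease in `N`; they tend to zero if and only if `μ` is singular.
-/

set_option autoImplicit false
set_option linter.unusedSectionVars false

namespace Pool.Agent.Q62.HB

open MeasureTheory Filter Topology Finset
open scoped ENNReal

/-- the Bernstein polynomials -/
noncomputable def bp (N k : ℕ) (x : ℝ) : ℝ := (N.choose k : ℝ) * x ^ k * (1 - x) ^ (N - k)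

theorem bp_cont (N k : ℕ) : Continuous (bp N k) := by unfold bp; fun_prop

theorem bp_nonneg {N k : ℕ} {x : ℝ} (hx : x ∈ Set.Icc (0 : ℝ) 1) : 0 ≤ bp N k x := by
  have h1 := hx.1
  have h2 : 0 ≤ 1 - x := by linarith [hx.2]
  unfold bp
  positivity

theorem sum_bp (N : ℕ) (x : ℝ) : ∑ k ∈ range (N + 1), bp N k x = 1 := by
  have h := add_pow x (1 - x) N
  rw [add_sub_cancel, one_pow] at h
  rw [h]
  refine sum_congr rfl fun k _ => ?_
  unfold bp
  ring

theorem bp_elev {N k : ℕ} (hk : k ≤ N) (x : ℝ) :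
    bp N k x = ((N + 1 - k : ℝ) / (N + 1)) * bp (N + 1) k x +
      ((k + 1 : ℝ) / (N + 1)) * bp (N + 1) (k + 1) x := by
  have hN : (N + 1 : ℝ) ≠ 0 := by positivity
  have h1 : ((N + 1).choose k : ℝ) * (N + 1 - k) = (N + 1) * (N.choose k) := by
    have h2 := Nat.choose_mul_succ_eq N k
    have h3 : ((N.choose k * (N + 1) : ℕ) : ℝ) = (((N + 1).choose k * (N + 1 - k) : ℕ) : ℝ) := by
      exact_mod_cast h2
    push_cast [Nat.cast_sub (by omega : k ≤ N + 1)] at h3
    linarith
  have h2 : ((N + 1).choose (k + 1) : ℝ) * (k + 1) = (N + 1) * (N.choose k) := by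
    have := Nat.add_one_mul_choose_eq N k
    have h3 : (((N + 1) * N.choose k : ℕ) : ℝ) = (((N + 1).choose (k + 1) * (k + 1) : ℕ) : ℝ) := by
      exact_mod_cast this
    push_cast at h3
    linarith
  unfold bp
  have e1 : N + 1 - k = (N - k) + 1 := by omega
  have e2 : N + 1 - (k + 1) = N - k := by omega
  rw [e1, e2]
  have a1 : ((N + 1 - k : ℝ) / (N + 1)) * (((N + 1).choose k : ℝ) * x ^ k * (1 - x) ^ (N - k + 1)) =
      (N.choose k : ℝ) * x ^ k * (1 - x) ^ (N - k + 1) := by
    rw [div_mul_eq_mul_div, div_eq_iff hN]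
    linear_combination (x ^ k * (1 - x) ^ (N - k + 1)) * h1
  have a2 : ((k + 1 : ℝ) / (N + 1)) * (((N + 1).choose (k + 1) : ℝ) * x ^ (k + 1) *
      (1 - x) ^ (N - k)) = (N.choose k : ℝ) * x ^ (k + 1) * (1 - x) ^ (N - k) := by
    rw [div_mul_eq_mul_div, div_eq_iff hN]
    linear_combination (x ^ (k + 1) * (1 - x) ^ (N - k)) * h2
  rw [a1, a2]
  ring

theorem bp_eq_eval (N k : ℕ) (x : ℝ) : bp N k x = (bernsteinPolynomial ℝ N k).eval x := by
  unfold bp bernsteinPolynomial
  simp

theorem integral_bp {N k : ℕ} (hk : k ≤ N) : ∫ x in (0 : ℝ)..1, bp N k x = 1 / (N + 1) := by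
  have hN : (N + 1 : ℝ) ≠ 0 := by positivity
  -- all the integrals are equal
  have h1 : ∀ k, k < N → ∫ x in (0 : ℝ)..1, bp N k x = ∫ x in (0 : ℝ)..1, bp N (k + 1) x := by
    intro k hk
    have hd : ∀ x : ℝ, HasDerivAt (bp (N + 1) (k + 1)) ((N + 1) * (bp N k x - bp N (k + 1) x)) x := by
      intro x
      have h2 := (bernsteinPolynomial ℝ (N + 1) (k + 1)).hasDerivAt x
      rw [bernsteinPolynomial.derivative_succ] at h2
      have e : (fun x => (bernsteinPolynomial ℝ (N + 1) (k + 1)).eval x) = bp (N + 1) (k + 1) := by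
        funext x
        rw [bp_eq_eval]
      rw [e] at h2
      have e3 : ((N : ℝ) + 1) * (bp N k x - bp N (k + 1) x) = Polynomial.eval x
          (↑(N + 1) * (bernsteinPolynomial ℝ (N + 1 - 1) k -
            bernsteinPolynomial ℝ (N + 1 - 1) (k + 1))) := by
        rw [bp_eq_eval, bp_eq_eval]
        simp
      rw [e3]
      exact h2
    have h3 := intervalIntegral.integral_eq_sub_of_hasDerivAt (a := 0) (b := 1)
      (fun x _ => hd x) ((continuous_const.mul ((bp_cont N k).sub
        (bp_cont N (k + 1)))).intervalIntegrable _ _)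
    have h4 : bp (N + 1) (k + 1) 1 - bp (N + 1) (k + 1) 0 = 0 := by
      unfold bp
      have e : N - k ≠ 0 := by omega
      simp [e]
    rw [h4, intervalIntegral.integral_const_mul, intervalIntegral.integral_sub
      ((bp_cont N k).intervalIntegrable _ _) ((bp_cont N (k + 1)).intervalIntegrable _ _)] at h3
    rcases mul_eq_zero.1 h3 with h5 | h5
    · exact absurd h5 hN
    · linarith
  have h2 : ∀ k, k ≤ N → ∫ x in (0 : ℝ)..1, bp N k x = ∫ x in (0 : ℝ)..1, bp N 0 x := by
    intro k
    induction k with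
    | zero => intro _; rfl
    | succ k ih =>
      intro hk
      rw [← h1 k (by omega)]
      exact ih (by omega)
  have h3 : ∑ k ∈ range (N + 1), ∫ x in (0 : ℝ)..1, bp N k x = 1 := by
    rw [← intervalIntegral.integral_finsetSum fun k _ => (bp_cont N k).intervalIntegrable _ _]
    simp only [sum_bp]
    simp
  have h4 : ∑ k ∈ range (N + 1), ∫ x in (0 : ℝ)..1, bp N k x =
      (N + 1) * ∫ x in (0 : ℝ)..1, bp N 0 x := by
    rw [sum_congr rfl fun k hk => h2 k (by rw [mem_range] at hk; omega)]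
    rw [sum_const, card_range, nsmul_eq_mul]
    push_cast
    ring
  rw [h2 k hk]
  rw [h4] at h3
  rw [eq_div_iff hN]
  linarith

theorem bern_approx (g : ℝ → ℝ) (hg : Continuous g) {ε : ℝ} (hε : 0 < ε) :
    ∀ᶠ N : ℕ in atTop, ∀ x ∈ Set.Icc (0 : ℝ) 1,
      |∑ k ∈ range (N + 1), g (k / N) * bp N k x - g x| ≤ ε := by
  let G : C(unitInterval, ℝ) := ⟨fun x => g x, hg.comp continuous_subtype_val⟩
  have h := bernsteinApproximation_uniform G
  rw [Metric.tendsto_atTop] at h
  obtain ⟨N0, hN0⟩ := h ε hε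
  filter_upwards [eventually_ge_atTop N0] with N hN x hx
  have h1 := hN0 N hN
  rw [ContinuousMap.dist_lt_iff hε] at h1
  have h2 := (h1 ⟨x, hx⟩).le
  rw [Real.dist_eq] at h2
  refine le_trans (le_of_eq ?_) h2
  congr 1
  congr 1
  rw [bernsteinApproximation.apply, Finset.sum_range]
  refine Finset.sum_congr rfl fun k _ => ?_
  rw [bernstein_apply]
  change _ = _ • g _
  rw [smul_eq_mul]
  unfold bp
  rw [mul_comm]
  congr 1

/-- the content -/
noncomputable def hc (μ : Measure ℝ) (N : ℕ) : ℝ :=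
  ∑ k ∈ range (N + 1), Real.sqrt ((∫ x, bp N k x ∂μ) / (N + 1))

section meas

variable {μ : Measure ℝ} [IsFiniteMeasure μ]

theorem int_of_cont (hμ : μ (Set.Icc 0 1)ᶜ = 0) {f : ℝ → ℝ} (hf : Continuous f) :
    Integrable f μ := by
  have h1 : Integrable f (μ.restrict (Set.Icc 0 1)) := hf.integrableOn_Icc
  rwa [Measure.restrict_eq_self_of_ae_mem (by
    rw [ae_iff]
    exact hμ)] at h1

theorem ae_mem (hμ : μ (Set.Icc 0 1)ᶜ = 0) : ∀ᵐ x ∂μ, x ∈ Set.Icc (0 : ℝ) 1 := by
  rw [ae_iff]
  exact hμ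

theorem int_bp_nonneg (hμ : μ (Set.Icc 0 1)ᶜ = 0) (N k : ℕ) : 0 ≤ ∫ x, bp N k x ∂μ :=
  integral_nonneg_of_ae ((ae_mem hμ).mono fun _ hx => bp_nonneg hx)

theorem sum_int_bp (hμ : μ (Set.Icc 0 1)ᶜ = 0) (N : ℕ) :
    ∑ k ∈ range (N + 1), ∫ x, bp N k x ∂μ = μ.real Set.univ := by
  rw [← integral_finsetSum _ fun k _ => int_of_cont hμ (bp_cont N k)]
  simp only [sum_bp]
  simp

theorem hc_nonneg (N : ℕ) : 0 ≤ hc μ N := sum_nonneg fun _ _ => Real.sqrt_nonneg _

/-- the content decreases -/
theorem hc_anti (hμ : μ (Set.Icc 0 1)ᶜ = 0) : Antitone (hc μ) := by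
  apply antitone_nat_of_succ_le
  intro N
  have hN : (0 : ℝ) < N + 1 := by positivity
  have hN2 : (0 : ℝ) < N + 2 := by positivity
  set m : ℕ → ℝ := fun j => ∫ x, bp (N + 1) j x ∂μ with hm
  have hm0 : ∀ j, 0 ≤ m j := fun j => int_bp_nonneg hμ _ _
  set s : ℕ → ℝ := fun j => Real.sqrt (m j / (N + 2)) with hs
  have hs0 : ∀ j, 0 ≤ s j := fun j => Real.sqrt_nonneg _
  have hs2 : ∀ j, s j ^ 2 = m j / (N + 2) := fun j => Real.sq_sqrt (by have := hm0 j; positivity)
  have h1 : hc μ (N + 1) = ∑ j ∈ range (N + 2), s j := by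
    unfold hc
    refine sum_congr rfl fun j _ => ?_
    simp only [hs, hm]
    congr 2
    push_cast
    ring
  have h2 : ∑ j ∈ range (N + 2), s j =
      ∑ k ∈ range (N + 1), (((N + 1 - k : ℝ) / (N + 1)) * s k + ((k + 1 : ℝ) / (N + 1)) * s (k + 1)) := by
    rw [sum_add_distrib]
    have e1 : ∑ k ∈ range (N + 1), ((N + 1 - k : ℝ) / (N + 1)) * s k =
        ∑ k ∈ range (N + 2), ((N + 1 - k : ℝ) / (N + 1)) * s k := by
      rw [sum_range_succ _ (N + 1)]
      push_cast
      simp
    have e2 : ∑ k ∈ range (N + 1), ((k + 1 : ℝ) / (N + 1)) * s (k + 1) =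
        ∑ k ∈ range (N + 2), ((k : ℝ) / (N + 1)) * s k := by
      rw [sum_range_succ' _ (N + 1)]
      simp
    rw [e1, e2, ← sum_add_distrib]
    refine sum_congr rfl fun j _ => ?_
    rw [← add_mul, ← add_div]
    have : ((N : ℝ) + 1 - j + j) / (N + 1) = 1 := by
      rw [sub_add_cancel, div_self hN.ne']
    rw [this, one_mul]
  rw [h1, h2]
  unfold hc
  refine sum_le_sum fun k hk => ?_
  have hkN : k ≤ N := by rw [mem_range] at hk; omega
  have hkN' : (k : ℝ) ≤ N := by exact_mod_cast hkN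
  obtain ⟨α, hα⟩ : ∃ α : ℝ, α = (N + 1 - k : ℝ) / (N + 1) := ⟨_, rfl⟩
  obtain ⟨β, hβ⟩ : ∃ β : ℝ, β = (k + 1 : ℝ) / (N + 1) := ⟨_, rfl⟩
  have hα0 : 0 ≤ α := by rw [hα]; apply div_nonneg <;> linarith
  have hβ0 : 0 ≤ β := by rw [hβ]; positivity
  have hαβ : α + β = (N + 2) / (N + 1) := by rw [hα, hβ]; field_simp; ring
  have hM : ∫ x, bp N k x ∂μ = α * m k + β * m (k + 1) := by
    simp only [hm]
    rw [← integral_const_mul, ← integral_const_mul, ← integral_add
      ((int_of_cont hμ (bp_cont _ _)).const_mul _) ((int_of_cont hμ (bp_cont _ _)).const_mul _)]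
    refine integral_congr_ae (ae_of_all _ fun x => ?_)
    dsimp only
    rw [bp_elev hkN, hα, hβ]
  rw [← hα, ← hβ]
  apply Real.le_sqrt_of_sq_le
  have e3 : (∫ x, bp N k x ∂μ) / (N + 1) = (α * s k ^ 2 + β * s (k + 1) ^ 2) * (α + β) := by
    rw [hM, hs2, hs2, hαβ]
    field_simp
  rw [e3]
  nlinarith [mul_nonneg (mul_nonneg hα0 hβ0) (sq_nonneg (s k - s (k + 1)))]

theorem sqrt_le_amgm {a b g : ℝ} (ha : 0 ≤ a) (hb : 0 ≤ b) (hg : 0 < g) :
    Real.sqrt (a * b) ≤ (a * g⁻¹ + g * b) / 2 := by
  apply Real.sqrt_le_iff.2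
  constructor
  · positivity
  · have : a * b = (a * g⁻¹) * (g * b) := by field_simp
    rw [this]
    nlinarith [sq_nonneg (a * g⁻¹ - g * b)]

theorem hc_le (hμ : μ (Set.Icc 0 1)ᶜ = 0) {g : ℝ → ℝ} (hg : Continuous g) {δ : ℝ} (hδ : 0 < δ)
    (hgδ : ∀ x, δ ≤ g x) {ε : ℝ} (hε : 0 < ε) :
    ∀ᶠ N in atTop, hc μ N ≤ ((∫ x, (g x)⁻¹ ∂μ) + (∫ x in (0 : ℝ)..1, g x)) / 2 + ε := by
  have hg0 : ∀ x, 0 < g x := fun x => hδ.trans_le (hgδ x)
  have hgi : Continuous fun x => (g x)⁻¹ := hg.inv₀ fun x => (hg0 x).ne'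
  have hM0 : 0 ≤ μ.real Set.univ := measureReal_nonneg
  obtain ⟨η, hη⟩ : ∃ η : ℝ, η = ε / (μ.real Set.univ + 1) := ⟨_, rfl⟩
  have hη0 : 0 < η := by rw [hη]; positivity
  filter_upwards [bern_approx g hg hη0, bern_approx (fun x => (g x)⁻¹) hgi hη0] with N h1 h2
  have hN : (0 : ℝ) < N + 1 := by positivity
  have h3 : hc μ N ≤ ∑ k ∈ range (N + 1),
      ((∫ x, bp N k x ∂μ) * (g (k / N))⁻¹ + g (k / N) * (1 / (N + 1))) / 2 := by
    unfold hc
    refine sum_le_sum fun k _ => ?_
    rw [div_eq_mul_one_div (∫ x, bp N k x ∂μ)]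
    exact sqrt_le_amgm (int_bp_nonneg hμ N k) (by positivity) (hg0 _)
  have h4 : ∑ k ∈ range (N + 1), (∫ x, bp N k x ∂μ) * (g (k / N))⁻¹ ≤
      (∫ x, (g x)⁻¹ ∂μ) + η * μ.real Set.univ := by
    have e : ∑ k ∈ range (N + 1), (∫ x, bp N k x ∂μ) * (g (k / N))⁻¹ =
        ∫ x, ∑ k ∈ range (N + 1), (g (k / N))⁻¹ * bp N k x ∂μ := by
      rw [integral_finsetSum _ fun k _ => (int_of_cont hμ (bp_cont N k)).const_mul _]
      refine sum_congr rfl fun k _ => ?_
      rw [integral_const_mul]
      ring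
    rw [e]
    have e2 : (∫ x, (g x)⁻¹ ∂μ) + η * μ.real Set.univ = ∫ x, ((g x)⁻¹ + η) ∂μ := by
      rw [integral_add (int_of_cont hμ hgi) (integrable_const _), integral_const, smul_eq_mul]
      ring
    rw [e2]
    refine integral_mono_ae ?_ ?_ ?_
    · exact integrable_finsetSum _ fun k _ => (int_of_cont hμ (bp_cont N k)).const_mul _
    · exact (int_of_cont hμ hgi).add (integrable_const _)
    · filter_upwards [ae_mem hμ] with x hx
      have := (abs_le.1 (h2 x hx)).2
      linarith
  have h5 : ∑ k ∈ range (N + 1), g (k / N) * (1 / (N + 1)) ≤ (∫ x in (0 : ℝ)..1, g x) + η := by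
    have e : ∑ k ∈ range (N + 1), g (k / N) * (1 / (N + 1)) =
        ∫ x in (0 : ℝ)..1, ∑ k ∈ range (N + 1), g (k / N) * bp N k x := by
      have hh : ∀ k ∈ range (N + 1), IntervalIntegrable (fun x => g (k / N) * bp N k x)
          volume 0 1 := fun k _ => (continuous_const.mul (bp_cont N k)).intervalIntegrable _ _
      rw [intervalIntegral.integral_finsetSum hh]
      refine sum_congr rfl fun k hk => ?_
      rw [intervalIntegral.integral_const_mul, integral_bp (by rw [mem_range] at hk; omega)]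
    rw [e]
    have e2 : (∫ x in (0 : ℝ)..1, g x) + η = ∫ x in (0 : ℝ)..1, (g x + η) := by
      rw [intervalIntegral.integral_add (hg.intervalIntegrable _ _)
        (continuous_const.intervalIntegrable _ _)]
      simp
    rw [e2]
    apply intervalIntegral.integral_mono_on zero_le_one
    · exact (continuous_finsetSum _ fun k _ =>
        continuous_const.mul (bp_cont N k)).intervalIntegrable _ _
    · exact (hg.add continuous_const).intervalIntegrable _ _
    · intro x hx
      have := (abs_le.1 (h1 x hx)).2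
      linarith
  refine h3.trans ?_
  rw [← sum_div, sum_add_distrib]
  have h6 : η * μ.real Set.univ + η = ε := by
    rw [hη]
    field_simp
  linarith

/-- singular measures have content tending to zero -/
theorem tendsto_of_sing (hμ : μ (Set.Icc 0 1)ᶜ = 0) (hs : μ ⟂ₘ volume) :
    Tendsto (hc μ) atTop (𝓝 0) := by
  rw [Metric.tendsto_atTop']
  intro ε hε
  obtain ⟨s, hs1, hs2, hs3⟩ := hs
  -- constants
  obtain ⟨δ, hδ⟩ : ∃ δ : ℝ, δ = ε / 8 := ⟨_, rfl⟩
  have hδ0 : 0 < δ := by rw [hδ]; positivity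
  have hM0 : 0 ≤ μ.real Set.univ := measureReal_nonneg
  obtain ⟨M, hM⟩ : ∃ M : ℝ, M = (μ.real Set.univ + 1) / δ := ⟨_, rfl⟩
  have hMp : 0 < M := by rw [hM]; positivity
  -- a compact set which carries most of the measure
  have hμs : μ sᶜ = μ Set.univ := by
    have := measure_add_measure_compl (μ := μ) hs1
    rw [hs2, zero_add] at this
    exact this
  obtain ⟨K, hKs, hK, hμK⟩ : ∃ K ⊆ sᶜ, IsCompact K ∧ μ (sᶜ \ K) < ENNReal.ofReal (δ ^ 2) := by
    exact hs1.compl.exists_isCompact_sdiff_lt (measure_ne_top _ _)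
      (by simpa using (by positivity : (0 : ℝ) < δ ^ 2).ne')
  have hKv : volume K = 0 := measure_mono_null hKs hs3
  obtain ⟨U, hKU, hUo, hU⟩ : ∃ U ⊇ K, IsOpen U ∧ volume U < ENNReal.ofReal (δ / M) := by
    refine K.exists_isOpen_lt_of_lt _ ?_
    rw [hKv]
    simpa using (by positivity : 0 < δ / M)
  obtain ⟨φ, hφ1, hφ0, hφ⟩ := exists_continuous_zero_one_of_isClosed
    (s := Uᶜ) (t := K) hUo.isClosed_compl hK.isClosed (by
      rw [Set.disjoint_left]
      intro x hx hxK
      exact hx (hKU hxK))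
  let g : ℝ → ℝ := fun x => δ + M * φ x
  have hg : Continuous g := by
    have := φ.continuous
    fun_prop
  have hgδ : ∀ x, δ ≤ g x := fun x => by
    have := (hφ x).1
    have : 0 ≤ M * φ x := by positivity
    simp only [g]
    linarith
  have h1 := hc_le hμ hg hδ0 hgδ hδ0
  obtain ⟨N0, hN0⟩ := eventually_atTop.1 h1
  refine ⟨N0, fun N hN => ?_⟩
  rw [dist_zero_right, Real.norm_of_nonneg (hc_nonneg N)]
  refine lt_of_le_of_lt (hN0 N hN.le) ?_
  -- the integral of `1 / g`
  have hμuniv : μ.real Kᶜ ≤ δ ^ 2 := by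
    have e : μ Kᶜ ≤ μ (sᶜ \ K) := by
      have : Kᶜ ⊆ s ∪ (sᶜ \ K) := by
        intro x hx
        by_cases hxs : x ∈ s
        · exact Or.inl hxs
        · exact Or.inr ⟨hxs, hx⟩
      refine (measure_mono this).trans ((measure_union_le _ _).trans ?_)
      rw [hs2, zero_add]
    have := e.trans hμK.le
    exact ENNReal.toReal_le_of_le_ofReal (by positivity) this
  have hi1 : ∫ x, (g x)⁻¹ ∂μ ≤ 2 * δ := by
    have hb : ∀ x, (g x)⁻¹ ≤ (Kᶜ).indicator (fun _ => δ⁻¹) x + M⁻¹ := by
      intro x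
      by_cases hx : x ∈ K
      · have e : φ x = 1 := by
          have := hφ0 hx
          simpa using this
        rw [Set.indicator_of_notMem (by simpa using hx), zero_add]
        apply inv_anti₀ hMp
        simp only [g]
        rw [e]
        linarith
      · rw [Set.indicator_of_mem (by simpa using hx)]
        have : (g x)⁻¹ ≤ δ⁻¹ := inv_anti₀ hδ0 (hgδ x)
        have h0 : 0 < M⁻¹ := by positivity
        linarith
    have hgi : Continuous fun x => (g x)⁻¹ := hg.inv₀ fun x => (hδ0.trans_le (hgδ x)).ne'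
    have hind : Integrable ((Kᶜ).indicator fun _ : ℝ => δ⁻¹) μ :=
      (integrable_const _).indicator hK.isClosed.measurableSet.compl
    calc ∫ x, (g x)⁻¹ ∂μ ≤ ∫ x, ((Kᶜ).indicator (fun _ => δ⁻¹) x + M⁻¹) ∂μ :=
          integral_mono (int_of_cont hμ hgi) (hind.add (integrable_const _)) hb
      _ = μ.real Kᶜ * δ⁻¹ + μ.real Set.univ * M⁻¹ := by
          rw [integral_add hind (integrable_const _),
            integral_indicator hK.isClosed.measurableSet.compl, setIntegral_const, smul_eq_mul,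
            integral_const, smul_eq_mul]
      _ ≤ δ ^ 2 * δ⁻¹ + μ.real Set.univ * M⁻¹ := by gcongr
      _ ≤ 2 * δ := by
          have e1 : δ ^ 2 * δ⁻¹ = δ := by field_simp
          have e2 : μ.real Set.univ * M⁻¹ ≤ δ := by
            rw [hM, inv_div, ← mul_div_assoc, div_le_iff₀ (by positivity)]
            nlinarith
          rw [e1]
          linarith
  have hi2 : ∫ x in (0 : ℝ)..1, g x ≤ 2 * δ := by
    have hφi : ∫ x in (0 : ℝ)..1, φ x ≤ δ / M := by
      rw [intervalIntegral.integral_of_le zero_le_one]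
      have hb : ∀ x, φ x ≤ U.indicator (fun _ => (1 : ℝ)) x := by
        intro x
        by_cases hx : x ∈ U
        · rw [Set.indicator_of_mem hx]
          exact (hφ x).2
        · rw [Set.indicator_of_notMem hx]
          have : φ x = 0 := by
            have := hφ1 (show x ∈ Uᶜ from hx)
            simpa using this
          rw [this]
      have hUfin : volume U ≠ ∞ := hU.ne_top
      have hint : Integrable (U.indicator fun _ : ℝ => (1 : ℝ)) volume := by
        rw [integrable_indicator_iff hUo.measurableSet]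
        exact integrableOn_const hUfin
      calc ∫ x in Set.Ioc (0 : ℝ) 1, φ x ≤ ∫ x in Set.Ioc (0 : ℝ) 1, U.indicator (fun _ => (1 : ℝ)) x := by
            apply integral_mono
            · exact (φ.continuous.integrableOn_Icc (a := 0) (b := 1)).mono_set
                Set.Ioc_subset_Icc_self
            · exact hint.integrableOn
            · exact hb
        _ ≤ ∫ x, U.indicator (fun _ => (1 : ℝ)) x := by
            apply setIntegral_le_integral hint
            exact ae_of_all _ fun x => Set.indicator_nonneg (fun _ _ => zero_le_one) x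
        _ = volume.real U := by
            rw [integral_indicator hUo.measurableSet, setIntegral_const, smul_eq_mul, mul_one]
        _ ≤ δ / M := ENNReal.toReal_le_of_le_ofReal (by positivity) hU.le
    have e : ∫ x in (0 : ℝ)..1, g x = δ + M * ∫ x in (0 : ℝ)..1, φ x := by
      simp only [g]
      have hh : IntervalIntegrable (fun x => M * φ x) volume 0 1 :=
        (continuous_const.mul φ.continuous).intervalIntegrable _ _
      rw [intervalIntegral.integral_add (continuous_const.intervalIntegrable _ _) hh,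
        intervalIntegral.integral_const_mul]
      simp
    rw [e]
    have : M * ∫ x in (0 : ℝ)..1, φ x ≤ M * (δ / M) := by gcongr
    have e2 : M * (δ / M) = δ := by field_simp
    linarith
  rw [hδ] at hi1 hi2
  rw [hδ]
  linarith

theorem le_sqrt_of_forall {X m n : ℝ} (hm : 0 ≤ m) (hn : 0 < n)
    (h : ∀ c : ℝ, 0 < c → X ≤ (m * c⁻¹ + c * n) / 2) : X ≤ Real.sqrt (m * n) := by
  rcases hm.eq_or_lt with hm0 | hm0
  · rw [← hm0]
    rw [zero_mul, Real.sqrt_zero]
    by_contra hX
    push Not at hX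
    have h1 := h (X / n) (by positivity)
    rw [← hm0, zero_mul, zero_add, div_mul_cancel₀ _ hn.ne'] at h1
    linarith
  · have hsm : 0 < Real.sqrt m := Real.sqrt_pos.2 hm0
    have hsn : 0 < Real.sqrt n := Real.sqrt_pos.2 hn
    have h1 := h (Real.sqrt m / Real.sqrt n) (by positivity)
    have e : (m * (Real.sqrt m / Real.sqrt n)⁻¹ + Real.sqrt m / Real.sqrt n * n) / 2 =
        Real.sqrt m * Real.sqrt n := by
      have e1 : m = Real.sqrt m * Real.sqrt m := (Real.mul_self_sqrt hm).symm
      have e2 : n = Real.sqrt n * Real.sqrt n := (Real.mul_self_sqrt hn.le).symm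
      rw [inv_div]
      have a1 : m * (Real.sqrt n / Real.sqrt m) = Real.sqrt m * Real.sqrt n := by
        rw [mul_div_assoc', div_eq_iff hsm.ne']
        linear_combination (Real.sqrt n) * e1
      have a2 : Real.sqrt m / Real.sqrt n * n = Real.sqrt m * Real.sqrt n := by
        rw [div_mul_eq_mul_div, div_eq_iff hsn.ne']
        linear_combination (Real.sqrt m) * e2
      rw [a1, a2]
      ring
    rw [e] at h1
    rwa [Real.sqrt_mul hm]

/-- if the content takes arbitrarily small values then the measure is singular -/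
theorem sing_of_small (hμ : μ (Set.Icc 0 1)ᶜ = 0) (h : ∀ ε : ℝ, 0 < ε → ∃ N, hc μ N < ε) :
    μ ⟂ₘ volume := by
  set f : ℝ → ℝ := fun x => (μ.rnDeriv volume x).toReal with hf
  have hf0 : ∀ x, 0 ≤ f x := fun x => ENNReal.toReal_nonneg
  have hfm : Measurable f := (Measure.measurable_rnDeriv μ volume).ennreal_toReal
  have hfi : Integrable f volume := Measure.integrable_toReal_rnDeriv
  have hsf : Integrable (fun x => Real.sqrt (f x)) (volume.restrict (Set.Ioc 0 1)) := by
    have h1 : Integrable (fun x => 1 + f x) (volume.restrict (Set.Ioc 0 1)) :=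
      (integrable_const _).add hfi.integrableOn
    refine h1.mono' (hfm.sqrt).aestronglyMeasurable (ae_of_all _ fun x => ?_)
    rw [Real.norm_of_nonneg (Real.sqrt_nonneg _)]
    have := Real.sq_sqrt (hf0 x)
    nlinarith [sq_nonneg (Real.sqrt (f x) - 1), Real.sqrt_nonneg (f x)]
  have hkey : ∀ N, ∫ x in Set.Ioc (0 : ℝ) 1, Real.sqrt (f x) ≤ hc μ N := by
    intro N
    have hN : (0 : ℝ) < 1 / (N + 1) := by positivity
    have hbi : ∀ k, Integrable (fun x => bp N k x * Real.sqrt (f x))
        (volume.restrict (Set.Ioc 0 1)) := by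
      intro k
      have hc1 : ContinuousOn (bp N k) (Set.Icc 0 1) := (bp_cont N k).continuousOn
      obtain ⟨C, hC⟩ := (isCompact_Icc (a := (0 : ℝ)) (b := 1)).exists_bound_of_continuousOn hc1
      refine Integrable.bdd_mul (c := C) hsf (bp_cont N k).aestronglyMeasurable ?_
      filter_upwards [ae_restrict_mem measurableSet_Ioc] with x hx
      exact hC x (Set.Ioc_subset_Icc_self hx)
    have e : ∫ x in Set.Ioc (0 : ℝ) 1, Real.sqrt (f x) =
        ∑ k ∈ range (N + 1), ∫ x in Set.Ioc (0 : ℝ) 1, bp N k x * Real.sqrt (f x) := by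
      rw [← integral_finsetSum _ fun k _ => hbi k]
      refine integral_congr_ae (ae_of_all _ fun x => ?_)
      dsimp only
      rw [← Finset.sum_mul, sum_bp, one_mul]
    rw [e]
    unfold hc
    refine sum_le_sum fun k hk => ?_
    have hkN : k ≤ N := by rw [mem_range] at hk; omega
    rw [div_eq_mul_one_div (∫ x, bp N k x ∂μ)]
    refine le_sqrt_of_forall (int_bp_nonneg hμ N k) hN fun c hc => ?_
    have hbf : Integrable (fun x => bp N k x * f x) (volume.restrict (Set.Ioc 0 1)) := by
      have hc1 : ContinuousOn (bp N k) (Set.Icc 0 1) := (bp_cont N k).continuousOn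
      obtain ⟨C, hC⟩ := (isCompact_Icc (a := (0 : ℝ)) (b := 1)).exists_bound_of_continuousOn hc1
      refine Integrable.bdd_mul (c := C) hfi.integrableOn (bp_cont N k).aestronglyMeasurable ?_
      filter_upwards [ae_restrict_mem measurableSet_Ioc] with x hx
      exact hC x (Set.Ioc_subset_Icc_self hx)
    have hb1 : Integrable (bp N k) (volume.restrict (Set.Ioc 0 1)) :=
      ((bp_cont N k).integrableOn_Icc (a := 0) (b := 1)).mono_set Set.Ioc_subset_Icc_self
    have h1 : ∫ x in Set.Ioc (0 : ℝ) 1, bp N k x * Real.sqrt (f x) ≤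
        ∫ x in Set.Ioc (0 : ℝ) 1, (c⁻¹ / 2 * (bp N k x * f x) + c / 2 * bp N k x) := by
      refine integral_mono_ae (hbi k) ((hbf.const_mul _).add (hb1.const_mul _)) ?_
      filter_upwards [ae_restrict_mem measurableSet_Ioc] with x hx
      have hb0 := bp_nonneg (N := N) (k := k) (Set.Ioc_subset_Icc_self hx)
      have h2 : Real.sqrt (f x) ≤ (f x * c⁻¹ + c * 1) / 2 := by
        have := sqrt_le_amgm (hf0 x) zero_le_one hc
        rwa [mul_one] at this
      calc bp N k x * Real.sqrt (f x) ≤ bp N k x * ((f x * c⁻¹ + c * 1) / 2) := by gcongr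
        _ = _ := by ring
    rw [integral_add (hbf.const_mul _) (hb1.const_mul _), integral_const_mul,
      integral_const_mul] at h1
    have h2 : ∫ x in Set.Ioc (0 : ℝ) 1, bp N k x = 1 / (N + 1) := by
      rw [← intervalIntegral.integral_of_le zero_le_one]
      exact integral_bp hkN
    have h3 : ∫ x in Set.Ioc (0 : ℝ) 1, bp N k x * f x ≤ ∫ x, bp N k x ∂μ := by
      have e1 : ∫ x in Set.Ioc (0 : ℝ) 1, bp N k x * f x =
          ∫ x in Set.Ioc (0 : ℝ) 1, bp N k x ∂(volume.withDensity (μ.rnDeriv volume)) := by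
        rw [restrict_withDensity measurableSet_Ioc]
        rw [integral_withDensity_eq_integral_toReal_smul (Measure.measurable_rnDeriv μ volume)
          (ae_restrict_of_ae (Measure.rnDeriv_lt_top μ volume))]
        refine integral_congr_ae (ae_of_all _ fun x => ?_)
        simp only [smul_eq_mul, hf]
        ring
      rw [e1]
      have hle : (volume.withDensity (μ.rnDeriv volume)).restrict (Set.Ioc 0 1) ≤
          μ.restrict (Set.Icc 0 1) :=
        Measure.restrict_mono Set.Ioc_subset_Icc_self (Measure.withDensity_rnDeriv_le μ volume)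
      have hμr : μ.restrict (Set.Icc 0 1) = μ := Measure.restrict_eq_self_of_ae_mem (ae_mem hμ)
      rw [hμr] at hle
      apply integral_mono_measure hle
      · filter_upwards [ae_mem hμ] with x hx
        exact bp_nonneg hx
      · exact int_of_cont hμ (bp_cont N k)
    rw [h2] at h1
    have h4 : c⁻¹ / 2 * ∫ x in Set.Ioc (0 : ℝ) 1, bp N k x * f x ≤
        c⁻¹ / 2 * ∫ x, bp N k x ∂μ := by gcongr
    linarith
  have hz : ∫ x in Set.Ioc (0 : ℝ) 1, Real.sqrt (f x) = 0 := by
    apply le_antisymm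
    · by_contra hc
      push Not at hc
      obtain ⟨N, hN⟩ := h _ hc
      exact absurd (hkey N) (not_le.2 hN)
    · exact integral_nonneg fun x => Real.sqrt_nonneg _
  rw [integral_eq_zero_iff_of_nonneg (fun x => Real.sqrt_nonneg _) hsf] at hz
  have hz' : ∀ᵐ x ∂(volume.restrict (Set.Ioc (0 : ℝ) 1)), μ.rnDeriv volume x = 0 := by
    filter_upwards [hz, ae_restrict_of_ae (Measure.rnDeriv_lt_top μ volume)] with x hx hx2
    have h1 : Real.sqrt (f x) = 0 := hx
    have h2 : f x = 0 := by
      have := Real.sqrt_eq_zero (hf0 x)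
      exact this.1 h1
    rcases (ENNReal.toReal_eq_zero_iff _).1 h2 with h3 | h3
    · exact h3
    · exact absurd h3 hx2.ne
  -- the absolutely continuous part vanishes
  have hac : volume.withDensity (μ.rnDeriv volume) = 0 := by
    have h1 : (volume.withDensity (μ.rnDeriv volume)) (Set.Ioc 0 1) = 0 := by
      rw [withDensity_apply _ measurableSet_Ioc, lintegral_eq_zero_iff
        (Measure.measurable_rnDeriv μ volume)]
      exact hz'
    have h2 : (volume.withDensity (μ.rnDeriv volume)) (Set.Ioc (0 : ℝ) 1)ᶜ = 0 := by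
      have hle := Measure.withDensity_rnDeriv_le μ (volume : Measure ℝ)
      have h3 : (volume.withDensity (μ.rnDeriv volume)) (Set.Icc (0 : ℝ) 1)ᶜ = 0 :=
        le_antisymm ((hle _).trans hμ.le) bot_le
      have h4 : (volume.withDensity (μ.rnDeriv volume)) {(0 : ℝ)} = 0 :=
        withDensity_absolutelyContinuous _ _ (by simp)
      have : (Set.Ioc (0 : ℝ) 1)ᶜ ⊆ (Set.Icc (0 : ℝ) 1)ᶜ ∪ {0} := by
        intro x hx
        by_cases h5 : x = 0
        · exact Or.inr h5
        · left
          intro h6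
          exact hx ⟨lt_of_le_of_ne h6.1 (Ne.symm h5), h6.2⟩
      exact measure_mono_null this (measure_union_null h3 h4)
    rw [← Measure.measure_univ_eq_zero]
    rw [← Set.union_compl_self (Set.Ioc (0 : ℝ) 1)]
    exact measure_union_null h1 h2
  have := Measure.haveLebesgueDecomposition_add μ (volume : Measure ℝ)
  rw [this, hac, add_zero]
  exact Measure.mutuallySingular_singularPart μ volume

end meas

end Pool.Agent.Q62.HB
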