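import Pool.Agent.Q62.HB.Op

/-!
# Purely singular spectrum if and only if the mean Bernstein content tends to zero
-/

set_option autoImplicit false
set_option linter.unusedSectionVars false

namespace Pool.Agent.Q62.HB

open MeasureTheory Filter Topology Finset
open scoped ENNReal
open Pool.Agent.TH980.IM (Sd L2 ee HV HV_apply HV_sa cl cl_eq cl_abs ee_apply inner_ee spm spm_inner
  spm_int norm_sq_eq BT_spm IsA final2)
open Pool.Agent.H12R2.And (Rz)

variable {d : ℕ}

/-- the spectrum is purely singular -/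
def Pure (ω : Sd d → ℝ) : Prop :=
  ∀ H : L2 d →L[ℂ] L2 d, IsA ω H → ∀ (φ : L2 d) (μ : Measure ℝ), IsFiniteMeasure μ →
    (∀ z : ℂ, z.im ≠ 0 → (∫ x, ((x : ℂ) - z)⁻¹ ∂μ) = inner ℂ φ (Rz H z φ)) → μ ⟂ₘ volume

/-- the mean content -/
noncomputable def mean (d : ℕ) (b : ℝ) (ν : Measure ℝ) (N : ℕ) : ℝ :=
  ∫ ω, content b N ω ∂(Measure.infinitePi fun _ : Sd d => ν)

theorem isA_HV {b : ℝ} {ω : Sd d → ℝ} (hω : ∀ x, |ω x| ≤ b) : IsA ω (HV b ω) := by
  intro u j
  rw [HV_apply, cl_eq (hω j)]
  congr 1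
  rw [← Finset.sum_neg_distrib]
  refine Finset.sum_congr rfl fun i _ => ?_
  ring

section law

variable {ν : Measure ℝ} [IsProbabilityMeasure ν] {b : ℝ}

theorem ae_bdd (hνb : ∀ᵐ v ∂ν, |v| ≤ b) :
    ∀ᵐ ω ∂(Measure.infinitePi fun _ : Sd d => ν), ∀ x, |ω x| ≤ b := by
  rw [ae_all_iff]
  intro x
  exact (measurePreserving_eval_infinitePi (fun _ : Sd d => ν)
    x).quasiMeasurePreserving.ae hνb

theorem content_int (hb : 0 < b) (hνb : ∀ᵐ v ∂ν, |v| ≤ b) (N : ℕ) :
    Integrable (fun ω : Sd d → ℝ => content b N ω) (Measure.infinitePi fun _ : Sd d => ν) := by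
  refine Integrable.of_bound (content_cont b N).measurable.aestronglyMeasurable 1 ?_
  filter_upwards [ae_bdd hνb] with ω hω
  rw [Real.norm_of_nonneg (content_nonneg b N ω)]
  exact content_le_one hb hω N

theorem mean_anti (hb : 0 < b) (hνb : ∀ᵐ v ∂ν, |v| ≤ b) : Antitone (mean d b ν) := by
  intro N N' h
  unfold mean
  refine integral_mono_ae (content_int hb hνb N') (content_int hb hνb N) ?_
  filter_upwards [ae_bdd hνb] with ω hω
  exact content_anti hb hω h

theorem mean_nonneg (N : ℕ) : 0 ≤ mean d b ν N :=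
  integral_nonneg fun ω => content_nonneg b N ω

/-- the mean content tends to zero if the spectrum is purely singular -/
theorem tendsto_of_pure (hb : 0 < b) (hνb : ∀ᵐ v ∂ν, |v| ≤ b)
    (h : ∀ᵐ ω ∂(Measure.infinitePi fun _ : Sd d => ν), Pure ω) :
    Tendsto (mean d b ν) atTop (𝓝 0) := by
  have h1 := tendsto_integral_of_dominated_convergence
    (μ := Measure.infinitePi fun _ : Sd d => ν) (F := fun N ω => content b N ω)
    (f := fun _ => (0 : ℝ)) (fun _ => 1)
    (fun N => (content_cont b N).measurable.aestronglyMeasurable) (integrable_const _)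
    (fun N => ?_) ?_
  · rw [integral_zero] at h1
    exact h1
  · filter_upwards [ae_bdd hνb] with ω hω
    rw [Real.norm_of_nonneg (content_nonneg b N ω)]
    exact content_le_one hb hω N
  · filter_upwards [ae_bdd hνb, h] with ω hω hp
    have h2 := hp (HV b ω) (isA_HV hω) (ee 0) (spm (HV_sa b ω) (ee 0)) inferInstance
      (fun z hz => BT_spm (HV_sa b ω) (ee 0) hz)
    have h3 := tendsto_of_sing (nm_supp hb ω) ((nm_sing hb ω).2 h2)
    refine h3.congr fun N => ?_
    exact hc_nm hω N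

/-- if the mean content takes arbitrarily small values then the spectral measure of `δ_0` is almost surely
singular -/
theorem sing_of_mean (hb : 0 < b) (hνb : ∀ᵐ v ∂ν, |v| ≤ b)
    (h : ∀ ε : ℝ, 0 < ε → ∃ N, mean d b ν N < ε) :
    ∀ᵐ ω ∂(Measure.infinitePi fun _ : Sd d => ν), spm (HV_sa b ω) (ee 0) ⟂ₘ volume := by
  have hlim : ∀ᵐ ω ∂(Measure.infinitePi fun _ : Sd d => ν),
      liminf (fun N => ENNReal.ofReal (content b N ω)) atTop = 0 := by
    have hm : ∀ N, Measurable fun ω : Sd d → ℝ => ENNReal.ofReal (content b N ω) := fun N =>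
      (content_cont b N).measurable.ennreal_ofReal
    have h2 := lintegral_liminf_le (μ := Measure.infinitePi fun _ : Sd d => ν) (u := atTop) hm
    have h3 : ∀ N, ∫⁻ ω, ENNReal.ofReal (content b N ω) ∂(Measure.infinitePi fun _ : Sd d => ν) =
        ENNReal.ofReal (mean d b ν N) := fun N => by
      unfold mean
      rw [ofReal_integral_eq_lintegral_ofReal (content_int hb hνb N)
        (ae_of_all _ fun ω => content_nonneg b N ω)]
    have h4 : liminf (fun N => ∫⁻ ω, ENNReal.ofReal (content b N ω)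
        ∂(Measure.infinitePi fun _ : Sd d => ν)) atTop = 0 := by
      simp only [h3]
      have h5 : Tendsto (fun N => ENNReal.ofReal (mean d b ν N)) atTop (𝓝 0) := by
        rw [← ENNReal.ofReal_zero]
        refine (ENNReal.continuous_ofReal.tendsto 0).comp ?_
        rw [Metric.tendsto_atTop]
        intro ε hε
        obtain ⟨N, hN⟩ := h ε hε
        refine ⟨N, fun n hn => ?_⟩
        rw [dist_zero_right, Real.norm_of_nonneg (mean_nonneg n)]
        exact (mean_anti hb hνb hn).trans_lt hN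
      exact h5.liminf_eq
    rw [h4, nonpos_iff_eq_zero, lintegral_eq_zero_iff (.liminf hm)] at h2
    exact h2
  filter_upwards [hlim, ae_bdd hνb] with ω h1 hω
  rw [← nm_sing hb ω]
  apply sing_of_small (nm_supp hb ω)
  intro ε hε
  by_contra hc
  push Not at hc
  have h2 : ENNReal.ofReal ε ≤ liminf (fun N => ENNReal.ofReal (content b N ω)) atTop := by
    refine le_liminf_of_le (by isBoundedDefault) (Eventually.of_forall fun N => ?_)
    apply ENNReal.ofReal_le_ofReal
    have := hc N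
    rwa [hc_nm hω] at this
  rw [h1, nonpos_iff_eq_zero, ENNReal.ofReal_eq_zero] at h2
  linarith

/-- **The criterion.** -/
theorem pure_iff (hd : 1 ≤ d) (hb : 0 < b) (hνb : ∀ᵐ v ∂ν, |v| ≤ b) (hν : ∀ r : ℝ, ν {r} ≠ 1) :
    (∀ᵐ ω ∂(Measure.infinitePi fun _ : Sd d => ν), Pure ω) ↔
      Tendsto (mean d b ν) atTop (𝓝 0) := by
  refine ⟨tendsto_of_pure hb hνb, fun h => ?_⟩
  have hsing := sing_of_mean (d := d) hb hνb (fun ε hε => by
    obtain ⟨N, hN⟩ := (Metric.tendsto_atTop.1 h ε hε)
    refine ⟨N, ?_⟩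
    have := hN N le_rfl
    rw [dist_zero_right, Real.norm_of_nonneg (mean_nonneg N)] at this
    exact this)
  obtain ⟨S, hS, hmain⟩ := final2 (d := d) hd ν ⟨b, hνb⟩ hν
  have hne : (ee 0 : L2 d) ≠ 0 := by
    intro h0
    have h1 := ee_apply (d := d) 0 0
    rw [h0] at h1
    simp at h1
  have hPP : Pool.Agent.TH980.IM.PR.PP (Sd d) ν = Measure.infinitePi fun _ : Sd d => ν := rfl
  have hm := hmain (ee 0) hne
  rw [hPP] at hm
  have hS0 : volume (Set.univ ∩ S) = 0 := by
    by_contra hne0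
    have hf : ∀ᵐ ω ∂(Measure.infinitePi fun _ : Sd d => ν), False := by
      filter_upwards [hm, hsing, ae_bdd hνb] with ω ⟨H, h1, h2, h3, h4⟩ h5 hω
      have h6 : H = HV b ω := (h2 _ (isA_HV hω)).symm
      subst h6
      refine (h4 Set.univ MeasurableSet.univ).2 hne0 (spm (HV_sa b ω) (ee 0)) inferInstance
        (fun z hz => BT_spm (HV_sa b ω) (ee 0) hz) ?_
      rw [Measure.restrict_univ]
      exact h5
    obtain ⟨ω, hω⟩ := hf.exists
    exact hω
  filter_upwards [hm] with ω ⟨H, h1, h2, h3, h4⟩ H' hH' φ μ hμf hμ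
  have h6 : H' = H := h2 _ hH'
  subst h6
  have := (h4 Set.univ MeasurableSet.univ).1 hS0 φ μ hμf hμ
  rwa [Measure.restrict_univ] at this

end law

end Pool.Agent.Q62.HB
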