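import Pool.Agent.Q62.HB.Bern

/-!
# The limit of the Bernstein content is the integral of the square root of the density
-/

set_option autoImplicit false
set_option linter.unusedSectionVars false

namespace Pool.Agent.Q62.HB

open MeasureTheory Filter Topology Finset
open scoped ENNReal

/-- the integral of the square root of the Lebesgue density of the absolutely continuous part -/
noncomputable def aff (μ : Measure ℝ) : ℝ := ∫ x, Real.sqrt ((μ.rnDeriv volume x).toReal)

section meas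

variable {μ : Measure ℝ} [IsFiniteMeasure μ]

/-- the density vanishes outside of `(0, 1]` -/
theorem rn_off (hμ : μ (Set.Icc 0 1)ᶜ = 0) :
    ∀ᵐ x ∂(volume : Measure ℝ), x ∉ Set.Ioc (0 : ℝ) 1 → μ.rnDeriv volume x = 0 := by
  have h3 : (volume.withDensity (μ.rnDeriv volume)) (Set.Icc (0 : ℝ) 1)ᶜ = 0 :=
    le_antisymm ((Measure.withDensity_rnDeriv_le μ (volume : Measure ℝ) _).trans hμ.le) bot_le
  rw [withDensity_apply _ measurableSet_Icc.compl, lintegral_eq_zero_iff
    (Measure.measurable_rnDeriv μ volume)] at h3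
  have h4 : ∀ᵐ x ∂(volume : Measure ℝ), x ∈ (Set.Icc (0 : ℝ) 1)ᶜ → μ.rnDeriv volume x = 0 :=
    (ae_restrict_iff' measurableSet_Icc.compl).1 h3
  have h5 : ∀ᵐ x ∂(volume : Measure ℝ), x ≠ 0 := by
    rw [ae_iff]
    simp
  filter_upwards [h4, h5] with x h6 h7 h8
  apply h6
  intro h9
  exact h8 ⟨lt_of_le_of_ne h9.1 (Ne.symm h7), h9.2⟩

theorem aff_eq (hμ : μ (Set.Icc 0 1)ᶜ = 0) :
    aff μ = ∫ x in Set.Ioc (0 : ℝ) 1, Real.sqrt ((μ.rnDeriv volume x).toReal) := by
  unfold aff
  rw [← integral_indicator measurableSet_Ioc]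
  refine integral_congr_ae ?_
  filter_upwards [rn_off hμ] with x hx
  by_cases h : x ∈ Set.Ioc (0 : ℝ) 1
  · rw [Set.indicator_of_mem h]
  · rw [Set.indicator_of_notMem h, hx h]
    simp

theorem ac_eq (hμ : μ (Set.Icc 0 1)ᶜ = 0) :
    volume.withDensity (μ.rnDeriv volume) =
      (volume.restrict (Set.Ioc (0 : ℝ) 1)).withDensity (μ.rnDeriv volume) := by
  rw [← restrict_withDensity measurableSet_Ioc]
  symm
  apply Measure.restrict_eq_self_of_ae_mem
  rw [ae_iff, withDensity_apply_eq_zero (Measure.measurable_rnDeriv μ volume)]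
  have h := rn_off hμ
  rw [ae_iff] at h
  refine measure_mono_null (fun x hx => ?_) h
  simp only [Set.mem_inter_iff, Set.mem_ofPred_eq] at hx ⊢
  intro h1
  exact hx.1 (h1 hx.2)

theorem sqrt_int :
    Integrable (fun x => Real.sqrt ((μ.rnDeriv volume x).toReal))
      (volume.restrict (Set.Ioc (0 : ℝ) 1)) := by
  have hfi : Integrable (fun x => (μ.rnDeriv volume x).toReal) volume :=
    Measure.integrable_toReal_rnDeriv
  have hfm : Measurable fun x => (μ.rnDeriv volume x).toReal :=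
    (Measure.measurable_rnDeriv μ volume).ennreal_toReal
  have h1 : Integrable (fun x => 1 + (μ.rnDeriv volume x).toReal)
      (volume.restrict (Set.Ioc 0 1)) := (integrable_const _).add hfi.integrableOn
  refine h1.mono' (hfm.sqrt).aestronglyMeasurable (ae_of_all _ fun x => ?_)
  rw [Real.norm_of_nonneg (Real.sqrt_nonneg _)]
  have := Real.sq_sqrt (ENNReal.toReal_nonneg (a := μ.rnDeriv volume x))
  nlinarith [sq_nonneg (Real.sqrt (μ.rnDeriv volume x).toReal - 1),
    Real.sqrt_nonneg (μ.rnDeriv volume x).toReal]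

/-- the content is at least the integral of the square root of the density -/
theorem aff_le_hc (hμ : μ (Set.Icc 0 1)ᶜ = 0) (N : ℕ) : aff μ ≤ hc μ N := by
  rw [aff_eq hμ]
  set f : ℝ → ℝ := fun x => (μ.rnDeriv volume x).toReal with hf
  have hf0 : ∀ x, 0 ≤ f x := fun x => ENNReal.toReal_nonneg
  have hfm : Measurable f := (Measure.measurable_rnDeriv μ volume).ennreal_toReal
  have hfi : Integrable f volume := Measure.integrable_toReal_rnDeriv
  have hsf : Integrable (fun x => Real.sqrt (f x)) (volume.restrict (Set.Ioc 0 1)) := sqrt_int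
  have hN : (0 : ℝ) < 1 / (N + 1) := by positivity
  have hbi : ∀ k, Integrable (fun x => bp N k x * Real.sqrt (f x))
      (volume.restrict (Set.Ioc 0 1)) := by
    intro k
    have hc1 : ContinuousOn (bp N k) (Set.Icc 0 1) := (bp_cont N k).continuousOn
    obtain ⟨C, hC⟩ := (isCompact_Icc (a := (0 : ℝ)) (b := 1)).exists_bound_of_continuousOn hc1
    refine Integrable.bdd_mul (c := C) hsf (bp_cont N k).aestronglyMeasurable ?_
    filter_upwards [ae_restrict_mem measurableSet_Ioc] with x hx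
    exact hC x (Set.Ioc_subset_Icc_self hx)
  have e : ∫ x in Set.Ioc (0 : ℝ) 1, Real.sqrt (f x) =
      ∑ k ∈ range (N + 1), ∫ x in Set.Ioc (0 : ℝ) 1, bp N k x * Real.sqrt (f x) := by
    rw [← integral_finsetSum _ fun k _ => hbi k]
    refine integral_congr_ae (ae_of_all _ fun x => ?_)
    dsimp only
    rw [← Finset.sum_mul, sum_bp, one_mul]
  rw [e]
  unfold hc
  refine sum_le_sum fun k hk => ?_
  have hkN : k ≤ N := by rw [mem_range] at hk; omega
  rw [div_eq_mul_one_div (∫ x, bp N k x ∂μ)]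
  refine le_sqrt_of_forall (int_bp_nonneg hμ N k) hN fun c hc => ?_
  have hbf : Integrable (fun x => bp N k x * f x) (volume.restrict (Set.Ioc 0 1)) := by
    have hc1 : ContinuousOn (bp N k) (Set.Icc 0 1) := (bp_cont N k).continuousOn
    obtain ⟨C, hC⟩ := (isCompact_Icc (a := (0 : ℝ)) (b := 1)).exists_bound_of_continuousOn hc1
    refine Integrable.bdd_mul (c := C) hfi.integrableOn (bp_cont N k).aestronglyMeasurable ?_
    filter_upwards [ae_restrict_mem measurableSet_Ioc] with x hx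
    exact hC x (Set.Ioc_subset_Icc_self hx)
  have hb1 : Integrable (bp N k) (volume.restrict (Set.Ioc 0 1)) :=
    ((bp_cont N k).integrableOn_Icc (a := 0) (b := 1)).mono_set Set.Ioc_subset_Icc_self
  have h1 : ∫ x in Set.Ioc (0 : ℝ) 1, bp N k x * Real.sqrt (f x) ≤
      ∫ x in Set.Ioc (0 : ℝ) 1, (c⁻¹ / 2 * (bp N k x * f x) + c / 2 * bp N k x) := by
    refine integral_mono_ae (hbi k) ((hbf.const_mul _).add (hb1.const_mul _)) ?_
    filter_upwards [ae_restrict_mem measurableSet_Ioc] with x hx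
    have hb0 := bp_nonneg (N := N) (k := k) (Set.Ioc_subset_Icc_self hx)
    have h2 : Real.sqrt (f x) ≤ (f x * c⁻¹ + c * 1) / 2 := by
      have := sqrt_le_amgm (hf0 x) zero_le_one hc
      rwa [mul_one] at this
    calc bp N k x * Real.sqrt (f x) ≤ bp N k x * ((f x * c⁻¹ + c * 1) / 2) := by gcongr
      _ = _ := by ring
  rw [integral_add (hbf.const_mul _) (hb1.const_mul _), integral_const_mul,
    integral_const_mul] at h1
  have h2 : ∫ x in Set.Ioc (0 : ℝ) 1, bp N k x = 1 / (N + 1) := by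
    rw [← intervalIntegral.integral_of_le zero_le_one]
    exact integral_bp hkN
  have h3 : ∫ x in Set.Ioc (0 : ℝ) 1, bp N k x * f x ≤ ∫ x, bp N k x ∂μ := by
    have e1 : ∫ x in Set.Ioc (0 : ℝ) 1, bp N k x * f x =
        ∫ x in Set.Ioc (0 : ℝ) 1, bp N k x ∂(volume.withDensity (μ.rnDeriv volume)) := by
      rw [restrict_withDensity measurableSet_Ioc]
      rw [integral_withDensity_eq_integral_toReal_smul (Measure.measurable_rnDeriv μ volume)
        (ae_restrict_of_ae (Measure.rnDeriv_lt_top μ volume))]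
      refine integral_congr_ae (ae_of_all _ fun x => ?_)
      simp only [smul_eq_mul, hf]
      ring
    rw [e1]
    have hle : (volume.withDensity (μ.rnDeriv volume)).restrict (Set.Ioc 0 1) ≤
        μ.restrict (Set.Icc 0 1) :=
      Measure.restrict_mono Set.Ioc_subset_Icc_self (Measure.withDensity_rnDeriv_le μ volume)
    have hμr : μ.restrict (Set.Icc 0 1) = μ := Measure.restrict_eq_self_of_ae_mem (ae_mem hμ)
    rw [hμr] at hle
    apply integral_mono_measure hle
    · filter_upwards [ae_mem hμ] with x hx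
      exact bp_nonneg hx
    · exact int_of_cont hμ (bp_cont N k)
  rw [h2] at h1
  have h4 : c⁻¹ / 2 * ∫ x in Set.Ioc (0 : ℝ) 1, bp N k x * f x ≤
      c⁻¹ / 2 * ∫ x, bp N k x ∂μ := by gcongr
  linarith

/-- the pointwise estimate for the truncated square root -/
theorem trunc {f δ M : ℝ} (hf : 0 ≤ f) (hδ : 0 < δ) (hM : δ ≤ M) :
    f * (min (max (Real.sqrt f) δ) M)⁻¹ + min (max (Real.sqrt f) δ) M ≤
      2 * Real.sqrt f + 2 * δ + 2 * (f / M) := by
  have hM0 : 0 < M := hδ.trans_le hM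
  have hs := Real.mul_self_sqrt hf
  have hs0 := Real.sqrt_nonneg f
  have hfM : 0 ≤ f / M := by positivity
  rcases le_total (Real.sqrt f) δ with h1 | h1
  · rw [max_eq_right h1, min_eq_left hM]
    have h2 : f * δ⁻¹ ≤ δ := by
      rw [← div_eq_mul_inv, div_le_iff₀ hδ]
      nlinarith
    linarith
  · rw [max_eq_left h1]
    rcases le_total (Real.sqrt f) M with h2 | h2
    · rw [min_eq_left h2]
      have h3 : 0 < Real.sqrt f := hδ.trans_le h1
      have h4 : f * (Real.sqrt f)⁻¹ = Real.sqrt f := by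
        rw [← div_eq_mul_inv, div_eq_iff h3.ne']
        exact hs.symm
      rw [h4]
      linarith
    · rw [min_eq_right h2]
      have h3 : M ≤ f / M := by
        rw [le_div_iff₀ hM0]
        nlinarith
      rw [← div_eq_mul_inv]
      linarith

/-- the upper bound -/
theorem hc_upper (hμ : μ (Set.Icc 0 1)ᶜ = 0) {ε : ℝ} (hε : 0 < ε) :
    ∀ᶠ N in atTop, hc μ N ≤ aff μ + ε := by
  rw [aff_eq hμ]
  -- constants
  obtain ⟨δ, hδ⟩ : ∃ δ : ℝ, δ = min 1 (ε / 6) := ⟨_, rfl⟩
  have hδ0 : 0 < δ := by rw [hδ]; exact lt_min one_pos (by positivity)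
  have hδ1 : δ ≤ 1 := by rw [hδ]; exact min_le_left _ _
  have hδε : 6 * δ ≤ ε := by
    have : δ ≤ ε / 6 := by rw [hδ]; exact min_le_right _ _
    linarith
  have hT0 : 0 ≤ μ.real Set.univ := measureReal_nonneg
  obtain ⟨M, hM⟩ : ∃ M : ℝ, M = (μ.real Set.univ + 1) / δ := ⟨_, rfl⟩
  have hM0 : 0 < M := by rw [hM]; positivity
  have hM1 : δ ≤ M := by
    rw [hM, le_div_iff₀ hδ0]
    nlinarith
  have hTM : μ.real Set.univ / M ≤ δ := by
    rw [hM, div_div_eq_mul_div, div_le_iff₀ (by positivity)]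
    nlinarith
  -- the density
  set F := μ.rnDeriv volume with hF
  set f : ℝ → ℝ := fun x => (F x).toReal with hf
  have hf0 : ∀ x, 0 ≤ f x := fun x => ENNReal.toReal_nonneg
  have hFm : Measurable F := Measure.measurable_rnDeriv μ volume
  have hfm : Measurable f := hFm.ennreal_toReal
  have hfi : Integrable f volume := Measure.integrable_toReal_rnDeriv
  set lam : Measure ℝ := volume.restrict (Set.Ioc (0 : ℝ) 1) with hlam
  have hFtop : ∀ᵐ x ∂lam, F x < ∞ := ae_restrict_of_ae (Measure.rnDeriv_lt_top μ volume)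
  set μs := μ.singularPart volume with hμs
  set μa := lam.withDensity F with hμa
  have hac : volume.withDensity F = μa := ac_eq hμ
  have hdec : μ = μs + μa := by
    have := Measure.haveLebesgueDecomposition_add μ (volume : Measure ℝ)
    rw [← hac]
    exact this
  have hμsle : μs ≤ μ := Measure.singularPart_le μ volume
  have hμale : μa ≤ μ := by
    rw [← hac]
    exact Measure.withDensity_rnDeriv_le μ volume
  have : IsFiniteMeasure μa := isFiniteMeasure_of_le μ hμale
  have : IsFiniteMeasure μs := isFiniteMeasure_of_le μ hμsle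
  have hTa : ∫ x, f x ∂lam ≤ μ.real Set.univ := by
    have h1 : ∫ x, f x ∂lam = μa.real Set.univ := by
      have h2 := integral_withDensity_eq_integral_toReal_smul hFm hFtop (g := fun _ => (1 : ℝ))
      simp only [smul_eq_mul, mul_one, integral_const] at h2
      exact h2.symm
    rw [h1]
    exact ENNReal.toReal_mono (measure_ne_top _ _) (hμale Set.univ)
  -- the truncated square root
  set h : ℝ → ℝ := fun x => min (max (Real.sqrt (f x)) δ) M with hh
  have hhm : Measurable h := (hfm.sqrt.max measurable_const).min measurable_const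
  have hhδ : ∀ x, δ ≤ h x := fun x => le_min (le_max_right _ _) hM1
  have hhM : ∀ x, h x ≤ M := fun x => min_le_right _ _
  have hh0 : ∀ x, 0 < h x := fun x => hδ0.trans_le (hhδ x)
  set ρ : Measure ℝ := lam + μa with hρ
  have hhi : ∀ (m : Measure ℝ) [IsFiniteMeasure m], Integrable h m := fun m _ =>
    Integrable.of_bound hhm.aestronglyMeasurable M (ae_of_all _ fun x => by
      rw [Real.norm_of_nonneg (hh0 x).le]
      exact hhM x)
  have hhii : ∀ (m : Measure ℝ) [IsFiniteMeasure m], Integrable (fun x => (h x)⁻¹) m := fun m _ =>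
    Integrable.of_bound hhm.inv.aestronglyMeasurable δ⁻¹ (ae_of_all _ fun x => by
      rw [Real.norm_of_nonneg (inv_nonneg.2 (hh0 x).le)]
      exact inv_anti₀ hδ0 (hhδ x))
  obtain ⟨g0, hg0, hg0i⟩ := (hhi ρ).exists_boundedContinuous_integral_sub_le
    (ε := δ ^ 3) (by positivity)
  -- clamp
  set g1 : ℝ → ℝ := fun x => max (g0 x) δ with hg1
  have hg1c : Continuous g1 := g0.continuous.max continuous_const
  have hg1δ : ∀ x, δ ≤ g1 x := fun x => le_max_right _ _
  have hg1p : ∀ x, 0 < g1 x := fun x => hδ0.trans_le (hg1δ x)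
  have hdist : ∀ x, |g1 x - h x| ≤ ‖h x - g0 x‖ := by
    intro x
    have e : h x = max (h x) δ := (max_eq_left (hhδ x)).symm
    rw [Real.norm_eq_abs, abs_sub_comm (h x)]
    conv_lhs => rw [e]
    exact abs_max_sub_max_le_abs _ _ _
  have hgi : ∀ (m : Measure ℝ) [IsFiniteMeasure m], Integrable (fun x => ‖h x - g0 x‖) m :=
    fun m _ => ((hhi m).sub (g0.integrable m)).norm
  have hsplit : (∫ x, ‖h x - g0 x‖ ∂lam) + (∫ x, ‖h x - g0 x‖ ∂μa) ≤ δ ^ 3 := by
    rw [← integral_add_measure (hgi lam) (hgi μa)]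
    exact hg0
  have hn1 : 0 ≤ ∫ x, ‖h x - g0 x‖ ∂lam := integral_nonneg fun x => norm_nonneg _
  have hn2 : 0 ≤ ∫ x, ‖h x - g0 x‖ ∂μa := integral_nonneg fun x => norm_nonneg _
  -- singular part
  obtain ⟨s, hs1, hs2, hs3⟩ := Measure.mutuallySingular_singularPart μ (volume : Measure ℝ)
  rw [← hμs] at hs2
  have hμss : μs sᶜ = μs Set.univ := by
    have := measure_add_measure_compl (μ := μs) hs1
    rw [hs2, zero_add] at this
    exact this
  obtain ⟨K, hKs, hK, hμK⟩ : ∃ K ⊆ sᶜ, IsCompact K ∧ μs (sᶜ \ K) < ENNReal.ofReal (δ ^ 2) :=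
    hs1.compl.exists_isCompact_sdiff_lt (measure_ne_top _ _)
      (by simpa using (by positivity : (0 : ℝ) < δ ^ 2).ne')
  have hKv : volume K = 0 := measure_mono_null hKs hs3
  obtain ⟨U, hKU, hUo, hU⟩ : ∃ U ⊇ K, IsOpen U ∧ volume U < ENNReal.ofReal (δ / M) := by
    refine K.exists_isOpen_lt_of_lt _ ?_
    rw [hKv]
    simpa using (by positivity : 0 < δ / M)
  obtain ⟨φ, hφ1, hφ0, hφ⟩ := exists_continuous_zero_one_of_isClosed
    (s := Uᶜ) (t := K) hUo.isClosed_compl hK.isClosed (by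
      rw [Set.disjoint_left]
      intro x hx hxK
      exact hx (hKU hxK))
  let g : ℝ → ℝ := fun x => g1 x + M * φ x
  have hg : Continuous g := by
    have := φ.continuous
    fun_prop
  have hφM : ∀ x, 0 ≤ M * φ x := fun x => mul_nonneg hM0.le (hφ x).1
  have hgg1 : ∀ x, g1 x ≤ g x := fun x => by
    have := hφM x
    simp only [g]
    linarith
  have hgδ : ∀ x, δ ≤ g x := fun x => (hg1δ x).trans (hgg1 x)
  filter_upwards [hc_le hμ hg hδ0 hgδ hδ0] with N h1
  refine h1.trans ?_
  -- the integral of `1 / g`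
  have hgic : Continuous fun x => (g x)⁻¹ := hg.inv₀ fun x => (hδ0.trans_le (hgδ x)).ne'
  have hg1ic : Continuous fun x => (g1 x)⁻¹ := hg1c.inv₀ fun x => (hg1p x).ne'
  have hbi : ∀ (m : Measure ℝ) [IsFiniteMeasure m] (u : ℝ → ℝ), Continuous u → (∀ x, δ ≤ u x) →
      Integrable (fun x => (u x)⁻¹) m := fun m _ u hu hu2 =>
    Integrable.of_bound (hu.inv₀ fun x => (hδ0.trans_le (hu2 x)).ne').aestronglyMeasurable δ⁻¹
      (ae_of_all _ fun x => by
        rw [Real.norm_of_nonneg (inv_nonneg.2 (hδ0.le.trans (hu2 x)))]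
        exact inv_anti₀ hδ0 (hu2 x))
  have hμuniv : μs.real Kᶜ ≤ δ ^ 2 := by
    have e : μs Kᶜ ≤ μs (sᶜ \ K) := by
      have : Kᶜ ⊆ s ∪ (sᶜ \ K) := by
        intro x hx
        by_cases hxs : x ∈ s
        · exact Or.inl hxs
        · exact Or.inr ⟨hxs, hx⟩
      refine (measure_mono this).trans ((measure_union_le _ _).trans ?_)
      rw [hs2, zero_add]
    have := e.trans hμK.le
    exact ENNReal.toReal_le_of_le_ofReal (by positivity) this
  have hi1 : ∫ x, (g x)⁻¹ ∂μs ≤ 2 * δ := by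
    have hb : ∀ x, (g x)⁻¹ ≤ (Kᶜ).indicator (fun _ => δ⁻¹) x + M⁻¹ := by
      intro x
      by_cases hx : x ∈ K
      · have e : φ x = 1 := by
          have := hφ0 hx
          simpa using this
        rw [Set.indicator_of_notMem (by simpa using hx), zero_add]
        apply inv_anti₀ hM0
        simp only [g]
        rw [e]
        linarith [hg1p x]
      · rw [Set.indicator_of_mem (by simpa using hx)]
        have : (g x)⁻¹ ≤ δ⁻¹ := inv_anti₀ hδ0 (hgδ x)
        have h0 : 0 < M⁻¹ := by positivity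
        linarith
    have hind : Integrable ((Kᶜ).indicator fun _ : ℝ => δ⁻¹) μs :=
      (integrable_const _).indicator hK.isClosed.measurableSet.compl
    calc ∫ x, (g x)⁻¹ ∂μs ≤ ∫ x, ((Kᶜ).indicator (fun _ => δ⁻¹) x + M⁻¹) ∂μs :=
          integral_mono (hbi μs g hg hgδ) (hind.add (integrable_const _)) hb
      _ = μs.real Kᶜ * δ⁻¹ + μs.real Set.univ * M⁻¹ := by
          rw [integral_add hind (integrable_const _),
            integral_indicator hK.isClosed.measurableSet.compl, setIntegral_const, smul_eq_mul,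
            integral_const, smul_eq_mul]
      _ ≤ δ ^ 2 * δ⁻¹ + μ.real Set.univ * M⁻¹ := by
          have : μs.real Set.univ ≤ μ.real Set.univ :=
            ENNReal.toReal_mono (measure_ne_top _ _) (hμsle Set.univ)
          gcongr
      _ ≤ 2 * δ := by
          have e1 : δ ^ 2 * δ⁻¹ = δ := by field_simp
          rw [e1, ← div_eq_mul_inv]
          linarith
  have hi2 : ∫ x, (g x)⁻¹ ∂μa ≤ (∫ x, f x * (h x)⁻¹ ∂lam) +
      δ⁻¹ ^ 2 * ∫ x, ‖h x - g0 x‖ ∂μa := by
    have e1 : ∫ x, f x * (h x)⁻¹ ∂lam = ∫ x, (h x)⁻¹ ∂μa := by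
      rw [hμa, integral_withDensity_eq_integral_toReal_smul hFm hFtop]
      rfl
    rw [e1, ← integral_const_mul, ← integral_add (hhii μa) ((hgi μa).const_mul _)]
    refine integral_mono (hbi μa g hg hgδ) ((hhii μa).add ((hgi μa).const_mul _)) fun x => ?_
    have a1 : (g x)⁻¹ ≤ (g1 x)⁻¹ := inv_anti₀ (hg1p x) (hgg1 x)
    have a2 : (g1 x)⁻¹ - (h x)⁻¹ = (h x - g1 x) * ((g1 x)⁻¹ * (h x)⁻¹) := by
      have := (hg1p x).ne'
      have := (hh0 x).ne'
      field_simp
    have a3 : (g1 x)⁻¹ * (h x)⁻¹ ≤ δ⁻¹ ^ 2 := by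
      rw [pow_two]
      exact mul_le_mul (inv_anti₀ hδ0 (hg1δ x)) (inv_anti₀ hδ0 (hhδ x))
        (inv_nonneg.2 (hh0 x).le) (inv_nonneg.2 hδ0.le)
    have a4 : 0 ≤ (g1 x)⁻¹ * (h x)⁻¹ := mul_nonneg (inv_nonneg.2 (hg1p x).le)
      (inv_nonneg.2 (hh0 x).le)
    have a5 : (h x - g1 x) * ((g1 x)⁻¹ * (h x)⁻¹) ≤ δ⁻¹ ^ 2 * ‖h x - g0 x‖ := by
      calc (h x - g1 x) * ((g1 x)⁻¹ * (h x)⁻¹) ≤ |g1 x - h x| * ((g1 x)⁻¹ * (h x)⁻¹) := by
            refine mul_le_mul_of_nonneg_right ?_ a4
            rw [abs_sub_comm]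
            exact le_abs_self _
        _ ≤ ‖h x - g0 x‖ * δ⁻¹ ^ 2 := mul_le_mul (hdist x) a3 a4 (norm_nonneg _)
        _ = _ := mul_comm _ _
    change (g x)⁻¹ ≤ (h x)⁻¹ + δ⁻¹ ^ 2 * ‖h x - g0 x‖
    linarith
  have hi3 : ∫ x in (0 : ℝ)..1, g x ≤ (∫ x, h x ∂lam) + (∫ x, ‖h x - g0 x‖ ∂lam) + δ := by
    rw [intervalIntegral.integral_of_le zero_le_one, ← hlam]
    have hφi : ∫ x, φ x ∂lam ≤ δ / M := by
      have hb : ∀ x, φ x ≤ U.indicator (fun _ => (1 : ℝ)) x := by
        intro x
        by_cases hx : x ∈ U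
        · rw [Set.indicator_of_mem hx]
          exact (hφ x).2
        · rw [Set.indicator_of_notMem hx]
          have : φ x = 0 := by
            have := hφ1 (show x ∈ Uᶜ from hx)
            simpa using this
          rw [this]
      have hUfin : volume U ≠ ∞ := hU.ne_top
      have hint : Integrable (U.indicator fun _ : ℝ => (1 : ℝ)) volume := by
        rw [integrable_indicator_iff hUo.measurableSet]
        exact integrableOn_const hUfin
      calc ∫ x, φ x ∂lam ≤ ∫ x in Set.Ioc (0 : ℝ) 1, U.indicator (fun _ => (1 : ℝ)) x := by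
            apply integral_mono
            · exact (φ.continuous.integrableOn_Icc (a := 0) (b := 1)).mono_set
                Set.Ioc_subset_Icc_self
            · exact hint.integrableOn
            · exact hb
        _ ≤ ∫ x, U.indicator (fun _ => (1 : ℝ)) x := by
            apply setIntegral_le_integral hint
            exact ae_of_all _ fun x => Set.indicator_nonneg (fun _ _ => zero_le_one) x
        _ = volume.real U := by
            rw [integral_indicator hUo.measurableSet, setIntegral_const, smul_eq_mul, mul_one]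
        _ ≤ δ / M := ENNReal.toReal_le_of_le_ofReal (by positivity) hU.le
    have hg1i : Integrable g1 lam :=
      (hg1c.integrableOn_Icc (a := 0) (b := 1)).mono_set Set.Ioc_subset_Icc_self
    have hφi' : Integrable (fun x => M * φ x) lam :=
      ((continuous_const.mul φ.continuous).integrableOn_Icc (a := 0) (b := 1)).mono_set
        Set.Ioc_subset_Icc_self
    have e : ∫ x, g x ∂lam = (∫ x, g1 x ∂lam) + M * ∫ x, φ x ∂lam := by
      simp only [g]
      rw [integral_add hg1i hφi', integral_const_mul]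
    have h5 : ∫ x, g1 x ∂lam ≤ (∫ x, h x ∂lam) + ∫ x, ‖h x - g0 x‖ ∂lam := by
      rw [← integral_add (hhi lam) (hgi lam)]
      refine integral_mono hg1i ((hhi lam).add (hgi lam)) fun x => ?_
      have := (le_abs_self _).trans (hdist x)
      change g1 x ≤ h x + ‖h x - g0 x‖
      linarith
    have h6 : M * ∫ x, φ x ∂lam ≤ δ := by
      calc M * ∫ x, φ x ∂lam ≤ M * (δ / M) := by gcongr
        _ = δ := by field_simp
    rw [e]
    linarith
  -- the main part
  have hsf : Integrable (fun x => Real.sqrt (f x)) lam := sqrt_int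
  have hfl : Integrable f lam := hfi.integrableOn
  have hfh : Integrable (fun x => f x * (h x)⁻¹) lam := by
    have := Integrable.bdd_mul (c := δ⁻¹) hfl hhm.inv.aestronglyMeasurable
      (ae_of_all _ fun x => by
        rw [Pi.inv_apply, Real.norm_of_nonneg (inv_nonneg.2 (hh0 x).le)]
        exact inv_anti₀ hδ0 (hhδ x))
    refine this.congr (ae_of_all _ fun x => ?_)
    exact mul_comm _ _
  have hmain : (∫ x, f x * (h x)⁻¹ ∂lam) + (∫ x, h x ∂lam) ≤
      2 * (∫ x, Real.sqrt (f x) ∂lam) + 2 * δ + 2 * δ := by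
    rw [← integral_add hfh (hhi lam)]
    have h7 : ∫ x, (f x * (h x)⁻¹ + h x) ∂lam ≤
        ∫ x, (2 * Real.sqrt (f x) + 2 * δ + 2 * (f x / M)) ∂lam := by
      refine integral_mono (hfh.add (hhi lam)) (((hsf.const_mul 2).add (integrable_const _)).add
        ((hfl.div_const M).const_mul 2)) fun x => trunc (hf0 x) hδ0 hM1
    have hlu : lam.real Set.univ = 1 := by
      rw [hlam, measureReal_restrict_apply MeasurableSet.univ]
      simp
    have i1 : Integrable (fun x => 2 * Real.sqrt (f x)) lam := hsf.const_mul 2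
    have i2 : Integrable (fun _ : ℝ => 2 * δ) lam := integrable_const _
    have i3 : Integrable (fun x => 2 * (f x / M)) lam := (hfl.div_const M).const_mul 2
    have i4 : Integrable (fun x => 2 * Real.sqrt (f x) + 2 * δ) lam := i1.add i2
    have e2 : ∫ (_ : ℝ), 2 * δ ∂lam = 2 * δ := by
      rw [integral_const, hlu, one_smul]
    rw [integral_add i4 i3, integral_add i1 i2, e2, integral_const_mul, integral_const_mul,
      integral_div] at h7
    have h8 : (∫ x, f x ∂lam) / M ≤ δ := (div_le_div_of_nonneg_right hTa hM0.le).trans hTM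
    linarith
  have htot : ∫ x, (g x)⁻¹ ∂μ = (∫ x, (g x)⁻¹ ∂μs) + ∫ x, (g x)⁻¹ ∂μa := by
    conv_lhs => rw [hdec]
    exact integral_add_measure (hbi μs g hg hgδ) (hbi μa g hg hgδ)
  rw [htot]
  have hd3 : δ⁻¹ ^ 2 * (∫ x, ‖h x - g0 x‖ ∂μa) + (∫ x, ‖h x - g0 x‖ ∂lam) ≤ δ := by
    have b1 : (1 : ℝ) ≤ δ⁻¹ ^ 2 := one_le_pow₀ ((one_le_inv₀ hδ0).2 hδ1)
    have b2 : δ⁻¹ ^ 2 * (∫ x, ‖h x - g0 x‖ ∂μa) + (∫ x, ‖h x - g0 x‖ ∂lam) ≤
        δ⁻¹ ^ 2 * ((∫ x, ‖h x - g0 x‖ ∂lam) + (∫ x, ‖h x - g0 x‖ ∂μa)) := by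
      nlinarith
    refine b2.trans ((mul_le_mul_of_nonneg_left hsplit (by positivity)).trans (le_of_eq ?_))
    field_simp
  linarith

/-- **The limit of the content.** -/
theorem hc_lim (hμ : μ (Set.Icc 0 1)ᶜ = 0) : Tendsto (hc μ) atTop (𝓝 (aff μ)) := by
  rw [Metric.tendsto_atTop]
  intro ε hε
  obtain ⟨N0, h⟩ := eventually_atTop.1 (hc_upper hμ (half_pos hε))
  refine ⟨N0, fun N hN => ?_⟩
  rw [Real.dist_eq, abs_of_nonneg (sub_nonneg.2 (aff_le_hc hμ N))]
  linarith [h N hN]

end meas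

end Pool.Agent.Q62.HB
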