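import Pool.Agent.Q62.HB.Fin
import Pool.Agent.Q62.HB.Lim

/-!
# The mean absolutely continuous content as a function of the single site law
-/

set_option autoImplicit false
set_option linter.unusedSectionVars false

namespace Pool.Agent.Q62.HB

open MeasureTheory Filter Topology Finset
open scoped ENNReal BoundedContinuousFunction
open Pool.Agent.TH980.IM (Sd L2 ee HV HV_apply HV_sa cl cl_eq cl_abs ee_apply inner_ee spm spm_inner
  spm_int norm_sq_eq BT_spm IsA final2)

/-- scaling -/
theorem aff_map {μ : Measure ℝ} [IsFiniteMeasure μ] {c e : ℝ} (hc : 0 < c) :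
    aff (μ.map fun t => c⁻¹ * t + e) = (Real.sqrt c)⁻¹ * aff μ := by
  set g : ℝ → ℝ := fun t => c⁻¹ * t + e with hg
  have hgm : Measurable g := by fun_prop
  have hci : c⁻¹ ≠ 0 := inv_ne_zero hc.ne'
  have hemb : MeasurableEmbedding g := by
    have h1 : Topology.IsClosedEmbedding g := by
      have : g = (Homeomorph.addRight e) ∘ (Homeomorph.mulLeft₀ c⁻¹ hci) := by
        funext t
        simp [hg]
      rw [this]
      exact (Homeomorph.isClosedEmbedding _).comp (Homeomorph.isClosedEmbedding _)
    exact h1.measurableEmbedding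
  have hvol : (volume : Measure ℝ).map g = ENNReal.ofReal c • volume := by
    have h1 : g = (fun t => t + e) ∘ (fun t => c⁻¹ * t) := by
      funext t
      simp [hg]
    rw [h1, ← Measure.map_map (by fun_prop) (by fun_prop), Real.map_volume_mul_left hci,
      Measure.map_smul, map_add_right_eq_self, inv_inv, abs_of_pos hc]
  have h2 := hemb.rnDeriv_map μ (volume : Measure ℝ)
  have hfin : IsFiniteMeasure (μ.map g) := inferInstance
  have hc0 : ENNReal.ofReal c ≠ 0 := by simpa using hc
  have h3 := Measure.rnDeriv_smul_right_of_ne_top (μ.map g) (volume : Measure ℝ) hc0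
    ENNReal.ofReal_ne_top
  rw [← hvol] at h3
  have hq : Measure.QuasiMeasurePreserving g volume volume := by
    refine ⟨hgm, ?_⟩
    rw [hvol]
    exact Measure.smul_absolutelyContinuous
  have h4 := hq.ae h3
  have h5 : ∀ᵐ x ∂(volume : Measure ℝ), (μ.map g).rnDeriv volume (g x) =
      ENNReal.ofReal c * μ.rnDeriv volume x := by
    filter_upwards [h2, h4] with x hx2 hx4
    rw [← hx2, hx4, Pi.smul_apply, smul_eq_mul, ← mul_assoc,
      ENNReal.mul_inv_cancel hc0 ENNReal.ofReal_ne_top, one_mul]
  have h6 : ∫ x, Real.sqrt (((μ.map g).rnDeriv volume (g x)).toReal) =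
      c * aff (μ.map g) := by
    unfold aff
    have e1 := Measure.integral_comp_mul_left
      (fun y => Real.sqrt (((μ.map g).rnDeriv volume (y + e)).toReal)) c⁻¹
    have e2 := integral_add_right_eq_self (μ := (volume : Measure ℝ))
      (fun y => Real.sqrt (((μ.map g).rnDeriv volume y).toReal)) e
    rw [e2, inv_inv, abs_of_pos hc, smul_eq_mul] at e1
    exact e1
  have h7 : ∫ x, Real.sqrt (((μ.map g).rnDeriv volume (g x)).toReal) =
      Real.sqrt c * aff μ := by
    unfold aff
    rw [← integral_const_mul]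
    refine integral_congr_ae ?_
    filter_upwards [h5] with x hx
    rw [hx, ENNReal.toReal_mul, ENNReal.toReal_ofReal hc.le, Real.sqrt_mul hc.le]
  rw [h7] at h6
  have hsc : 0 < Real.sqrt c := Real.sqrt_pos.2 hc
  have hcc : Real.sqrt c * Real.sqrt c = c := Real.mul_self_sqrt hc.le
  rw [inv_mul_eq_div, eq_div_iff hsc.ne']
  have : Real.sqrt c * (aff (μ.map g) * Real.sqrt c) = Real.sqrt c * aff μ := by
    rw [h6]
    linear_combination (aff (μ.map g)) * hcc
  exact mul_left_cancel₀ hsc.ne' this

variable {d : ℕ}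

/-- the scale -/
noncomputable def sc (d : ℕ) (b : ℝ) : ℝ := 4 * d + 2 * b

theorem aff_nm {b : ℝ} (hb : 0 < b) (V : Sd d → ℝ) :
    aff (nm b V) = (Real.sqrt (sc d b))⁻¹ * aff (spm (HV_sa b V) (ee 0)) := by
  unfold nm
  exact aff_map (c := sc d b) (e := (4 * d + 2 * b)⁻¹ * b) (by unfold sc; positivity)

section law

variable {ν : Measure ℝ} [IsProbabilityMeasure ν] {b : ℝ}

/-- the a.c. content of the spectral measure of `δ_0` -/
noncomputable def acc (b : ℝ) (ω : Sd d → ℝ) : ℝ := aff (spm (HV_sa b ω) (ee 0))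

theorem acc_nonneg (b : ℝ) (ω : Sd d → ℝ) : 0 ≤ acc b ω := integral_nonneg fun _ => Real.sqrt_nonneg _

theorem content_tendsto (hb : 0 < b) {ω : Sd d → ℝ} (hω : ∀ x, |ω x| ≤ b) :
    Tendsto (fun N => content b N ω) atTop (𝓝 ((Real.sqrt (sc d b))⁻¹ * acc b ω)) := by
  have h := hc_lim (nm_supp hb ω)
  rw [aff_nm hb] at h
  exact h.congr fun N => hc_nm hω N

theorem mean_tendsto (hb : 0 < b) (hνb : ∀ᵐ v ∂ν, |v| ≤ b) :
    Tendsto (mean d b ν) atTop
      (𝓝 ((Real.sqrt (sc d b))⁻¹ * ∫ ω, acc b ω ∂(Measure.infinitePi fun _ : Sd d => ν))) := by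
  rw [← integral_const_mul]
  refine tendsto_integral_of_dominated_convergence
    (μ := Measure.infinitePi fun _ : Sd d => ν) (F := fun N ω => content b N ω)
    (fun _ => 1) (fun N => (content_cont b N).measurable.aestronglyMeasurable) (integrable_const _)
    (fun N => ?_) ?_
  · filter_upwards [ae_bdd hνb] with ω hω
    rw [Real.norm_of_nonneg (content_nonneg b N ω)]
    exact content_le_one hb hω N
  · filter_upwards [ae_bdd hνb] with ω hω
    exact content_tendsto hb hω

theorem acc_int (hb : 0 < b) (hνb : ∀ᵐ v ∂ν, |v| ≤ b) :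
    Integrable (fun ω : Sd d → ℝ => acc b ω) (Measure.infinitePi fun _ : Sd d => ν) := by
  have hs : 0 < Real.sqrt (sc d b) := Real.sqrt_pos.2 (by unfold sc; positivity)
  have hm : AEStronglyMeasurable (fun ω : Sd d → ℝ => (Real.sqrt (sc d b))⁻¹ * acc b ω)
      (Measure.infinitePi fun _ : Sd d => ν) := by
    refine aestronglyMeasurable_of_tendsto_ae atTop
      (fun N => (content_cont b N).measurable.aestronglyMeasurable) ?_
    filter_upwards [ae_bdd hνb] with ω hω
    exact content_tendsto hb hω
  have h1 : Integrable (fun ω : Sd d → ℝ => (Real.sqrt (sc d b))⁻¹ * acc b ω)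
      (Measure.infinitePi fun _ : Sd d => ν) := by
    refine Integrable.of_bound hm 1 ?_
    filter_upwards [ae_bdd hνb] with ω hω
    rw [Real.norm_of_nonneg (mul_nonneg (inv_nonneg.2 hs.le) (acc_nonneg b ω))]
    exact le_of_tendsto' (content_tendsto hb hω) fun N => content_le_one hb hω N
  have h2 := h1.const_mul (Real.sqrt (sc d b))
  refine h2.congr (ae_of_all _ fun ω => ?_)
  dsimp only
  rw [← mul_assoc, mul_inv_cancel₀ hs.ne', one_mul]

end law

section cont

/-- the cube of radius `N` -/
noncomputable def cube (d N : ℕ) : Finset (Sd d) := Fintype.piFinset fun _ => Finset.Icc (-(N : ℤ)) N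

theorem mem_cube {N : ℕ} {x : Sd d} : x ∈ cube d N ↔ ∀ i, |x i| ≤ (N : ℤ) := by
  unfold cube
  rw [Fintype.mem_piFinset]
  simp only [Finset.mem_Icc, abs_le]

open Classical in
/-- extension by zero -/
noncomputable def ext0 (N : ℕ) (ξ : cube d N → ℝ) (x : Sd d) : ℝ :=
  if h : x ∈ cube d N then ξ ⟨x, h⟩ else 0

theorem ext0_cont (N : ℕ) : Continuous (ext0 N : (cube d N → ℝ) → Sd d → ℝ) := by
  refine continuous_pi fun x => ?_
  unfold ext0
  by_cases h : x ∈ cube d N
  · simp only [h, dite_true]
    exact continuous_apply _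
  · simp only [h, dite_false]
    exact continuous_const

theorem content_ext0 (b : ℝ) (N : ℕ) (ω : Sd d → ℝ) :
    content b N ω = content b N (ext0 N ((cube d N).restrict ω)) := by
  refine content_congr fun x hx => ?_
  unfold ext0
  rw [dif_pos (mem_cube.2 hx)]
  rfl

variable {b : ℝ}

/-- a law on `[-b, b]` as a law on the line -/
noncomputable def toR (ν : ProbabilityMeasure (Set.Icc (-b) b)) : Measure ℝ :=
  (ν : Measure (Set.Icc (-b) b)).map Subtype.val

instance (ν : ProbabilityMeasure (Set.Icc (-b) b)) : IsProbabilityMeasure (toR ν) :=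
  Measure.isProbabilityMeasure_map measurable_subtype_coe.aemeasurable

theorem toR_bdd (ν : ProbabilityMeasure (Set.Icc (-b) b)) : ∀ᵐ v ∂(toR ν), |v| ≤ b := by
  unfold toR
  have hm : MeasurableSet {v : ℝ | |v| ≤ b} := measurableSet_le measurable_id.abs measurable_const
  rw [ae_map_iff measurable_subtype_coe.aemeasurable hm]
  exact ae_of_all _ fun v => abs_le.2 v.2

/-- the content as a bounded continuous function on `[-b, b]^cube` -/
noncomputable def cf (d : ℕ) (b : ℝ) (N : ℕ) : (cube d N → Set.Icc (-b) b) →ᵇ ℝ :=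
  BoundedContinuousFunction.mkOfCompact
    ⟨fun ξ => content b N (ext0 N fun i => (ξ i : ℝ)), by
      have := content_cont (d := d) b N
      have h2 := ext0_cont (d := d) N
      fun_prop⟩

theorem mean_toR (ν : ProbabilityMeasure (Set.Icc (-b) b)) (N : ℕ) :
    mean d b (toR ν) N = ∫ ξ, cf d b N ξ ∂((ProbabilityMeasure.pi fun _ : cube d N => ν :
      ProbabilityMeasure (cube d N → Set.Icc (-b) b)) : Measure (cube d N → Set.Icc (-b) b)) := by
  unfold mean
  have e0 : (fun ω : Sd d → ℝ => content b N ω) =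
      fun ω => content b N (ext0 N ((cube d N).restrict ω)) := funext (content_ext0 b N)
  rw [e0]
  have h1 : Measurable ((cube d N).restrict : (Sd d → ℝ) → (cube d N → ℝ)) :=
    measurable_restrict _
  have hF : Continuous fun ξ : cube d N → ℝ => content b N (ext0 N ξ) :=
    (content_cont b N).comp (ext0_cont N)
  have h2 := integral_map (μ := Measure.infinitePi fun _ : Sd d => toR ν)
    (φ := ((cube d N).restrict : (Sd d → ℝ) → (cube d N → ℝ))) h1.aemeasurable
    (f := fun ξ : cube d N → ℝ => content b N (ext0 N ξ)) hF.measurable.aestronglyMeasurable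
  rw [← h2, Measure.infinitePi_map_restrict]
  have h3 : Measure.pi (fun _ : cube d N => toR ν) =
      (Measure.pi fun _ : cube d N => (ν : Measure (Set.Icc (-b) b))).map
        fun ξ i => (ξ i : ℝ) := by
    unfold toR
    have : ∀ _ : cube d N, SigmaFinite
        ((ν : Measure (Set.Icc (-b) b)).map (Subtype.val : Set.Icc (-b) b → ℝ)) := fun _ => by
      have : IsFiniteMeasure ((ν : Measure (Set.Icc (-b) b)).map
        (Subtype.val : Set.Icc (-b) b → ℝ)) := inferInstance
      infer_instance
    rw [Measure.pi_map_pi (fun _ => measurable_subtype_coe.aemeasurable)]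
  have h4 : Measurable fun (ξ : cube d N → Set.Icc (-b) b) (i : cube d N) => (ξ i : ℝ) :=
    measurable_pi_lambda _ fun i => measurable_subtype_coe.comp (measurable_pi_apply i)
  rw [h3, integral_map h4.aemeasurable hF.measurable.aestronglyMeasurable]
  rfl

/-- the mean content is continuous in the law -/
theorem mean_cont (N : ℕ) :
    Continuous fun ν : ProbabilityMeasure (Set.Icc (-b) b) => mean d b (toR ν) N := by
  simp only [mean_toR]
  have h1 : Continuous fun ν : ProbabilityMeasure (Set.Icc (-b) b) =>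
      (ProbabilityMeasure.pi fun _ : cube d N => ν :
        ProbabilityMeasure (cube d N → Set.Icc (-b) b)) :=
    ProbabilityMeasure.continuous_pi.comp (continuous_pi fun _ => continuous_id)
  rw [continuous_iff_continuousAt]
  intro ν
  have h2 := (ProbabilityMeasure.tendsto_iff_forall_integral_tendsto.1 (h1.tendsto ν)) (cf d b N)
  exact h2

/-- the mean a.c. content as a function of the law -/
noncomputable def MC (d : ℕ) (b : ℝ) (ν : ProbabilityMeasure (Set.Icc (-b) b)) : ℝ :=
  ∫ ω, acc b ω ∂(Measure.infinitePi fun _ : Sd d => toR ν)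

theorem MC_eq (hb : 0 < b) (ν : ProbabilityMeasure (Set.Icc (-b) b)) :
    (Real.sqrt (sc d b))⁻¹ * MC d b ν = ⨅ N, mean d b (toR ν) N := by
  have h1 := mean_tendsto (d := d) hb (toR_bdd ν)
  have h2 := tendsto_atTop_ciInf (mean_anti (d := d) hb (toR_bdd ν))
    ⟨0, by rintro _ ⟨N, rfl⟩; exact mean_nonneg N⟩
  exact tendsto_nhds_unique h1 h2

theorem MC_usc (hb : 0 < b) : UpperSemicontinuous (MC d b) := by
  have hs : 0 < Real.sqrt (sc d b) := Real.sqrt_pos.2 (by unfold sc; positivity)
  have h1 : UpperSemicontinuous fun ν : ProbabilityMeasure (Set.Icc (-b) b) =>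
      ⨅ N, mean d b (toR ν) N :=
    upperSemicontinuous_ciInf (fun ν => ⟨0, by rintro _ ⟨N, rfl⟩; exact mean_nonneg N⟩)
      fun N => (mean_cont N).upperSemicontinuous
  have h2 : MC d b = fun ν => Real.sqrt (sc d b) * ⨅ N, mean d b (toR ν) N := by
    funext ν
    rw [← MC_eq hb, ← mul_assoc, mul_inv_cancel₀ hs.ne', one_mul]
  rw [h2]
  intro ν y hy
  have h3 : (⨅ N, mean d b (toR ν) N) < y / Real.sqrt (sc d b) := by
    rw [lt_div_iff₀ hs, mul_comm]
    exact hy
  filter_upwards [h1 ν _ h3] with ν' h4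
  rw [lt_div_iff₀ hs, mul_comm] at h4
  exact h4

theorem MC_nonneg (ν : ProbabilityMeasure (Set.Icc (-b) b)) : 0 ≤ MC d b ν :=
  integral_nonneg fun ω => acc_nonneg b ω

theorem MC_gdelta (hb : 0 < b) : IsGδ {ν : ProbabilityMeasure (Set.Icc (-b) b) | MC d b ν = 0} := by
  have e : {ν : ProbabilityMeasure (Set.Icc (-b) b) | MC d b ν = 0} =
      ⋂ k : ℕ, {ν | MC d b ν < 1 / ((k : ℝ) + 1)} := by
    ext ν
    simp only [Set.mem_iInter]
    constructor
    · intro h k
      change MC d b ν < _
      have h' : MC d b ν = 0 := h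
      rw [h']
      positivity
    · intro h
      apply le_antisymm _ (MC_nonneg ν)
      by_contra hc
      push Not at hc
      obtain ⟨k, hk⟩ := exists_nat_one_div_lt hc
      have := h k
      have h' : MC d b ν < 1 / ((k : ℝ) + 1) := this
      linarith
  rw [e]
  exact IsGδ.iInter_of_isOpen fun k => (MC_usc hb).isOpen_preimage _

theorem MC_zero_iff (hd : 1 ≤ d) (hb : 0 < b) (ν : ProbabilityMeasure (Set.Icc (-b) b))
    (hν : ∀ r : ℝ, toR ν {r} ≠ 1) :
    MC d b ν = 0 ↔ ∀ᵐ ω ∂(Measure.infinitePi fun _ : Sd d => toR ν), Pure ω := by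
  have hs : 0 < Real.sqrt (sc d b) := Real.sqrt_pos.2 (by unfold sc; positivity)
  rw [pure_iff hd hb (toR_bdd ν) hν]
  have h1 := mean_tendsto (d := d) hb (toR_bdd ν)
  constructor
  · intro h
    have h' : ∫ ω, acc b ω ∂(Measure.infinitePi fun _ : Sd d => toR ν) = 0 := h
    rw [h', mul_zero] at h1
    exact h1
  · intro h
    have h2 := tendsto_nhds_unique h1 h
    rcases mul_eq_zero.1 h2 with h3 | h3
    · exact absurd h3 (inv_ne_zero hs.ne')
    · exact h3

/-- the laws which are not point masses form an open set -/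
theorem open_np : IsOpen {ν : ProbabilityMeasure (Set.Icc (-b) b) | ∀ r : ℝ, toR ν {r} ≠ 1} := by
  have h1 : IsCompact (Set.range (diracProba : Set.Icc (-b) b → ProbabilityMeasure (Set.Icc (-b) b))) :=
    isCompact_range continuous_diracProba
  have h2 : {ν : ProbabilityMeasure (Set.Icc (-b) b) | ∀ r : ℝ, toR ν {r} ≠ 1} =
      (Set.range (diracProba : Set.Icc (-b) b → ProbabilityMeasure (Set.Icc (-b) b)))ᶜ := by
    ext ν
    simp only [Set.mem_compl_iff, Set.mem_range, not_exists]
    constructor
    · intro h x hx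
      apply h x
      rw [← hx]
      unfold toR
      rw [Measure.map_apply measurable_subtype_coe (measurableSet_singleton _)]
      have : (Subtype.val ⁻¹' {(x : ℝ)} : Set (Set.Icc (-b) b)) = {x} := by
        ext y
        simp [Subtype.ext_iff]
      rw [this]
      simp [diracProba]
    · intro h r hr
      unfold toR at hr
      rw [Measure.map_apply measurable_subtype_coe (measurableSet_singleton _)] at hr
      have hne : (Subtype.val ⁻¹' {r} : Set (Set.Icc (-b) b)).Nonempty := by
        rw [Set.nonempty_iff_ne_empty]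
        intro h0
        rw [h0, measure_empty] at hr
        exact zero_ne_one hr
      obtain ⟨x, hx⟩ := hne
      apply h x
      have e : (Subtype.val ⁻¹' {r} : Set (Set.Icc (-b) b)) = {x} := by
        ext y
        have hx' : (x : ℝ) = r := hx
        simp only [Set.mem_preimage, Set.mem_singleton_iff, Subtype.ext_iff, hx']
      rw [e] at hr
      apply Subtype.ext
      change Measure.dirac x = (ν : Measure (Set.Icc (-b) b))
      symm
      refine Measure.ext fun s hs => ?_
      by_cases hxs : x ∈ s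
      · rw [Measure.dirac_apply_of_mem hxs]
        apply le_antisymm prob_le_one
        rw [← hr]
        exact measure_mono (by simpa using hxs)
      · rw [Measure.dirac_apply' _ hs, Set.indicator_of_notMem hxs]
        have h5 : (ν : Measure (Set.Icc (-b) b)) {x}ᶜ = 0 := (prob_compl_eq_zero_iff
          (measurableSet_singleton x)).2 hr
        refine measure_mono_null (fun y hy => ?_) h5
        intro h6
        rw [Set.mem_singleton_iff] at h6
        exact hxs (h6 ▸ hy)
  rw [h2]
  exact h1.isClosed.isOpen_compl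

theorem mulI_mem (l : Set.Icc (0 : ℝ) 1) (v : Set.Icc (-b) b) :
    (l : ℝ) * v ∈ Set.Icc (-b) b := by
  have h1 := abs_le.2 v.2
  have h2 : |(l : ℝ) * v| ≤ b := by
    rw [abs_mul, abs_of_nonneg l.2.1]
    calc (l : ℝ) * |(v : ℝ)| ≤ 1 * |(v : ℝ)| := mul_le_mul_of_nonneg_right l.2.2 (abs_nonneg _)
      _ ≤ b := by rw [one_mul]; exact h1
  exact abs_le.1 h2

/-- multiplication by `l` -/
def mulI (l : Set.Icc (0 : ℝ) 1) (v : Set.Icc (-b) b) : Set.Icc (-b) b := ⟨(l : ℝ) * v, mulI_mem l v⟩

theorem mulI_cont : Continuous fun q : Set.Icc (0 : ℝ) 1 × Set.Icc (-b) b => mulI q.1 q.2 :=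
  Continuous.subtype_mk ((continuous_subtype_val.comp continuous_fst).mul
    (continuous_subtype_val.comp continuous_snd)) _

theorem mulI_meas (l : Set.Icc (0 : ℝ) 1) : Measurable (mulI l : Set.Icc (-b) b → Set.Icc (-b) b) :=
  (mulI_cont.comp (Continuous.prodMk_right l)).measurable

/-- the law of `λ v`, `0 ≤ λ ≤ 1` -/
noncomputable def scl (ν : ProbabilityMeasure (Set.Icc (-b) b)) (l : Set.Icc (0 : ℝ) 1) :
    ProbabilityMeasure (Set.Icc (-b) b) :=
  ν.map (f := mulI l) (mulI_meas l).aemeasurable

theorem scl_cont (ν : ProbabilityMeasure (Set.Icc (-b) b)) : Continuous (scl ν) := by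
  rw [continuous_iff_continuousAt]
  intro l
  refine ProbabilityMeasure.tendsto_iff_forall_integral_tendsto.2 fun f => ?_
  have e : ∀ l : Set.Icc (0 : ℝ) 1, ∫ v, f v ∂((scl ν l : ProbabilityMeasure (Set.Icc (-b) b)) :
      Measure (Set.Icc (-b) b)) = ∫ v : Set.Icc (-b) b, f (mulI l v) ∂(ν : Measure (Set.Icc (-b) b)) := by
    intro l
    unfold scl
    rw [ProbabilityMeasure.toMeasure_map, integral_map (mulI_meas l).aemeasurable
      f.continuous.measurable.aestronglyMeasurable]
  simp only [e]
  have hc : Continuous fun l : Set.Icc (0 : ℝ) 1 =>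
      ∫ v : Set.Icc (-b) b, f (mulI l v) ∂(ν : Measure (Set.Icc (-b) b)) := by
    refine continuous_of_dominated (bound := fun _ => ‖f‖) (fun l => ?_) (fun l => ae_of_all _ fun v =>
      f.norm_coe_le_norm _) (integrable_const _) (ae_of_all _ fun v => ?_)
    · exact (f.continuous.measurable.comp (mulI_meas l)).aestronglyMeasurable
    · exact f.continuous.comp (mulI_cont.comp (Continuous.prodMk_left v))
  exact hc.tendsto l

theorem toR_scl (ν : ProbabilityMeasure (Set.Icc (-b) b)) (l : Set.Icc (0 : ℝ) 1) :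
    toR (scl ν l) = (toR ν).map fun v => (l : ℝ) * v := by
  unfold toR scl
  rw [ProbabilityMeasure.toMeasure_map, Measure.map_map measurable_subtype_coe (mulI_meas l),
    Measure.map_map (by fun_prop) measurable_subtype_coe]
  rfl

theorem np_scl {ν : ProbabilityMeasure (Set.Icc (-b) b)} (hν : ∀ r : ℝ, toR ν {r} ≠ 1)
    {l : Set.Icc (0 : ℝ) 1} (hl : 0 < (l : ℝ)) (r : ℝ) : toR (scl ν l) {r} ≠ 1 := by
  rw [toR_scl, Measure.map_apply (by fun_prop) (measurableSet_singleton _)]
  have : (fun v : ℝ => (l : ℝ) * v) ⁻¹' {r} = {r / l} := by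
    ext v
    simp only [Set.mem_preimage, Set.mem_singleton_iff]
    rw [eq_div_iff hl.ne', mul_comm]
  rw [this]
  exact hν _

end cont

end Pool.Agent.Q62.HB
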