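import Pool.Agent.Q62.HB.Bern
import Pool.Agent.TH980.IM.Fin2

/-!
# The Bernstein content of the spectral measure of `δ_0` of a Schrödinger operator on `ℤ^d`
-/

set_option autoImplicit false
set_option linter.unusedSectionVars false

namespace Pool.Agent.Q62.HB

open MeasureTheory Filter Topology Finset
open scoped ENNReal
open Pool.Agent.TH980.IM (Sd L2 ee HV HV_apply HV_sa cl cl_eq cl_abs ee_apply inner_ee spm spm_inner
  spm_int norm_sq_eq BT_spm)
open Pool.Agent.H12R2.And (Rz)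

variable {d : ℕ}

section gen

variable {X : Type} [NormedAddCommGroup X] [InnerProductSpace ℂ X] [CompleteSpace X]
variable {T : X →L[ℂ] X}

theorem gen_cfc (hT : IsSelfAdjoint T) (b s : ℝ) :
    cfc (fun t : ℝ => (t + b) / s) T = (((s⁻¹ : ℝ) : ℂ)) • (T + (b : ℂ) • (1 : X →L[ℂ] X)) := by
  have e : (fun t : ℝ => (t + b) / s) = fun t : ℝ => s⁻¹ * (t + b) := by
    funext t
    rw [div_eq_inv_mul]
  rw [e, cfc_const_mul s⁻¹ (fun t : ℝ => t + b) T (by fun_prop),
    cfc_add T (fun t : ℝ => t) (fun _ => b) (by fun_prop) (by fun_prop),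
    cfc_id' ℝ T, cfc_const b T, Algebra.algebraMap_eq_smul_one]
  rfl

theorem gen_moment (hT : IsSelfAdjoint T) (b s : ℝ) (k m : ℕ) (u : X) :
    ((∫ t : ℝ, ((t + b) / s) ^ k * (1 - (t + b) / s) ^ m ∂(spm hT u) : ℝ) : ℂ) =
      inner ℂ u ((((((s⁻¹ : ℝ) : ℂ)) • (T + (b : ℂ) • (1 : X →L[ℂ] X))) ^ k *
        (1 - (((s⁻¹ : ℝ) : ℂ)) • (T + (b : ℂ) • (1 : X →L[ℂ] X))) ^ m) u) := by
  have hf : Continuous fun t : ℝ => ((t + b) / s) ^ k * (1 - (t + b) / s) ^ m := by fun_prop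
  rw [spm_inner hT u hf, cfc_mul (fun t : ℝ => ((t + b) / s) ^ k)
    (fun t : ℝ => (1 - (t + b) / s) ^ m) T (by fun_prop) (by fun_prop),
    cfc_pow (fun t : ℝ => (t + b) / s) k T (by fun_prop),
    cfc_pow (fun t : ℝ => 1 - (t + b) / s) m T (by fun_prop),
    cfc_sub (fun _ : ℝ => (1 : ℝ)) (fun t : ℝ => (t + b) / s) T
      (by fun_prop) (by fun_prop), cfc_const_one ℝ T, gen_cfc hT]

theorem gen_supp (hT : IsSelfAdjoint T) {c R : ℝ} (hR : 0 ≤ R)
    (h : ∀ f, ‖T f - (c : ℂ) • f‖ ≤ R * ‖f‖) (u : X) :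
    ∀ᵐ t : ℝ ∂(spm hT u), |t - c| ≤ R := by
  set f : ℝ → ℝ := fun t => max 0 (|t - c| - R) with hf
  have hfc : Continuous f := by fun_prop
  have h3 : ‖T - algebraMap ℝ (X →L[ℂ] X) c‖ ≤ R := by
    refine ContinuousLinearMap.opNorm_le_bound _ hR fun f => ?_
    refine le_trans (le_of_eq ?_) (h f)
    congr 1
  have hspec : Set.EqOn f (fun _ => 0) (spectrum ℝ T) := by
    intro t ht
    have h1 : t - c ∈ spectrum ℝ (T - algebraMap ℝ _ c) := by
      rw [← spectrum.sub_singleton_eq]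
      exact ⟨t, ht, _, rfl, rfl⟩
    have h2 := spectrum.subset_closedBall_norm_mul (𝕜 := ℝ) (T - algebraMap ℝ (X →L[ℂ] X) c) h1
    rw [Metric.mem_closedBall, dist_zero_right, Real.norm_eq_abs] at h2
    have h4 : ‖(1 : X →L[ℂ] X)‖ ≤ 1 := ContinuousLinearMap.norm_id_le
    have h5 : ‖T - algebraMap ℝ (X →L[ℂ] X) c‖ * ‖(1 : X →L[ℂ] X)‖ ≤ R * 1 :=
      mul_le_mul h3 h4 (norm_nonneg _) hR
    simp only [hf]
    exact max_eq_left (by linarith)
  have h1 := spm_inner hT u hfc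
  rw [cfc_congr hspec, cfc_const_zero ℝ T] at h1
  have h2 : ∫ t, f t ∂(spm hT u) = 0 := by
    have : ((∫ t, f t ∂(spm hT u) : ℝ) : ℂ) = 0 := by
      rw [h1]
      simp
    exact_mod_cast this
  have hf0 : ∀ t, 0 ≤ f t := fun t => le_max_left _ _
  rw [integral_eq_zero_iff_of_nonneg hf0 (spm_int hT u hfc)] at h2
  filter_upwards [h2] with t ht
  have h3 : f t = 0 := ht
  simp only [hf] at h3
  have := le_max_right 0 (|t - c| - R)
  rw [h3] at this
  linarith

end gen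

/-- `(Δ_ω u + b u) / (4 d + 2 b)` on real functions -/
noncomputable def step (b : ℝ) (ω : Sd d → ℝ) (u : Sd d → ℝ) (x : Sd d) : ℝ :=
  (-(∑ i : Fin d, ((u (x + Pi.single i 1) - u x) + (u (x - Pi.single i 1) - u x))) +
    ω x * u x + b * u x) / (4 * d + 2 * b)

/-- `u - (Δ_ω u + b u) / (4 d + 2 b)` -/
noncomputable def costep (b : ℝ) (ω : Sd d → ℝ) (u : Sd d → ℝ) (x : Sd d) : ℝ :=
  u x - step b ω u x

/-- the Bernstein moment `⟨δ_0, b_{k,N}((Δ_ω + b) / (4 d + 2 b)) δ_0⟩` -/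
noncomputable def mass (b : ℝ) (N k : ℕ) (ω : Sd d → ℝ) : ℝ :=
  (N.choose k : ℝ) * ((step b ω)^[k] ((costep b ω)^[N - k] (Pi.single 0 1))) 0

/-- the content -/
noncomputable def content (b : ℝ) (N : ℕ) (ω : Sd d → ℝ) : ℝ :=
  ∑ k ∈ range (N + 1), Real.sqrt (mass b N k ω / (N + 1))

/-! ### continuity in the potential -/

theorem step_cont (b : ℝ) {u : (Sd d → ℝ) → Sd d → ℝ} (hu : ∀ x, Continuous fun ω => u ω x)
    (x : Sd d) : Continuous fun ω : Sd d → ℝ => step b ω (u ω) x := by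
  unfold step
  apply Continuous.div_const
  refine Continuous.add (Continuous.add (Continuous.neg ?_) ?_) ?_
  · exact continuous_finsetSum _ fun i _ => ((hu _).sub (hu _)).add ((hu _).sub (hu _))
  · exact (continuous_apply x).mul (hu x)
  · exact continuous_const.mul (hu x)

theorem iter_cont (b : ℝ) {u : (Sd d → ℝ) → Sd d → ℝ} (hu : ∀ x, Continuous fun ω => u ω x) :
    ∀ (k : ℕ) (x : Sd d), Continuous fun ω : Sd d → ℝ => ((step b ω)^[k] (u ω)) x := by
  intro k
  induction k with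
  | zero => exact hu
  | succ k ih =>
    intro x
    simp only [Function.iterate_succ_apply']
    exact step_cont b ih x

theorem coiter_cont (b : ℝ) {u : (Sd d → ℝ) → Sd d → ℝ} (hu : ∀ x, Continuous fun ω => u ω x) :
    ∀ (k : ℕ) (x : Sd d), Continuous fun ω : Sd d → ℝ => ((costep b ω)^[k] (u ω)) x := by
  intro k
  induction k with
  | zero => exact hu
  | succ k ih =>
    intro x
    simp only [Function.iterate_succ_apply']
    unfold costep
    exact (ih x).sub (step_cont b ih x)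

theorem mass_cont (b : ℝ) (N k : ℕ) : Continuous fun ω : Sd d → ℝ => mass b N k ω := by
  unfold mass
  exact continuous_const.mul (iter_cont b (fun x => coiter_cont b
    (u := fun _ => Pi.single 0 1) (fun _ => continuous_const) (N - k) x) k 0)

theorem content_cont (b : ℝ) (N : ℕ) : Continuous fun ω : Sd d → ℝ => content b N ω := by
  unfold content
  exact continuous_finsetSum _ fun k _ => (((mass_cont b N k).div_const _).sqrt)

/-! ### the operators -/

/-- `(Δ_ω + b) / (4 d + 2 b)` -/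
noncomputable def AA (b : ℝ) (V : Sd d → ℝ) : L2 d →L[ℂ] L2 d :=
  (((4 * d + 2 * b)⁻¹ : ℝ) : ℂ) • (HV b V + (b : ℂ) • (1 : L2 d →L[ℂ] L2 d))

theorem AA_coord {b : ℝ} {V : Sd d → ℝ} (hV : ∀ x, |V x| ≤ b) {f : L2 d} {u : Sd d → ℝ}
    (hf : ∀ x, f x = (u x : ℂ)) (x : Sd d) : (AA b V f) x = (step b V u x : ℂ) := by
  have h1 : (AA b V f) x = (((4 * d + 2 * b)⁻¹ : ℝ) : ℂ) * ((HV b V f) x + (b : ℂ) * f x) := rfl
  rw [h1, HV_apply, cl_eq (hV x)]
  simp only [hf]
  unfold step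
  push_cast
  rw [div_eq_inv_mul]
  congr 1
  congr 1
  congr 1
  rw [← Finset.sum_neg_distrib]
  refine Finset.sum_congr rfl fun i _ => ?_
  ring

theorem AA_pow {b : ℝ} {V : Sd d → ℝ} (hV : ∀ x, |V x| ≤ b) {f : L2 d} {u : Sd d → ℝ}
    (hf : ∀ x, f x = (u x : ℂ)) : ∀ (k : ℕ) (x : Sd d),
      ((AA b V ^ k) f) x = (((step b V)^[k] u) x : ℂ) := by
  intro k
  induction k with
  | zero => intro x; simpa using hf x
  | succ k ih =>
    intro x
    rw [pow_succ', Function.iterate_succ_apply']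
    exact AA_coord hV ih x

theorem coAA_pow {b : ℝ} {V : Sd d → ℝ} (hV : ∀ x, |V x| ≤ b) {f : L2 d} {u : Sd d → ℝ}
    (hf : ∀ x, f x = (u x : ℂ)) : ∀ (k : ℕ) (x : Sd d),
      (((1 - AA b V) ^ k) f) x = (((costep b V)^[k] u) x : ℂ) := by
  intro k
  induction k with
  | zero => intro x; simpa using hf x
  | succ k ih =>
    intro x
    rw [pow_succ', Function.iterate_succ_apply']
    have h1 : (((1 - AA b V) * (1 - AA b V) ^ k) f) x =
        (((1 - AA b V) ^ k) f) x - (AA b V (((1 - AA b V) ^ k) f)) x := rfl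
    rw [h1, AA_coord hV ih x, ih x]
    unfold costep
    push_cast
    rfl

theorem ee_coord (x : Sd d) : (ee (0 : Sd d) : L2 d) x = (((Pi.single 0 1 : Sd d → ℝ) x : ℝ) : ℂ) := by
  rw [ee_apply]
  by_cases h : x = 0
  · subst h; simp
  · rw [if_neg h, Pi.single_eq_of_ne h]; simp

theorem inner_moment {b : ℝ} {V : Sd d → ℝ} (hV : ∀ x, |V x| ≤ b) (N k : ℕ) :
    ∫ t : ℝ, bp N k ((t + b) / (4 * d + 2 * b)) ∂(spm (HV_sa b V) (ee 0)) = mass b N k V := by
  have h1 := gen_moment (HV_sa b V) b (4 * d + 2 * b) k (N - k) (ee 0 : L2 d)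
  rw [inner_ee] at h1
  have h3 : ((AA b V ^ k * (1 - AA b V) ^ (N - k)) (ee 0 : L2 d)) 0 =
      (((step b V)^[k] ((costep b V)^[N - k] (Pi.single 0 1))) 0 : ℂ) :=
    AA_pow hV (coAA_pow hV ee_coord (N - k)) k 0
  unfold AA at h3
  rw [h3] at h1
  have h4 := Complex.ofReal_injective h1
  unfold mass
  rw [← h4, ← integral_const_mul]
  refine integral_congr_ae (ae_of_all _ fun t => ?_)
  unfold bp
  dsimp only
  ring

/-! ### the support of the spectral measure -/

theorem norm_le_of {A : L2 d →L[ℂ] L2 d} {e : Sd d → Sd d} (he : Function.Injective e)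
    {c : Sd d → ℂ} {C : ℝ} (hC : 0 ≤ C) (hc : ∀ x, ‖c x‖ ≤ C) (hA : ∀ f x, (A f) x = c x * f (e x))
    (f : L2 d) : ‖A f‖ ≤ C * ‖f‖ := by
  have hsum : ∀ f : L2 d, Summable fun x => ‖f x‖ ^ (2 : ℝ) := by
    intro f
    have := (lp.memℓp f).summable (by norm_num : 0 < (2 : ℝ≥0∞).toReal)
    simpa using this
  have h1 := lp.norm_rpow_eq_tsum (by norm_num : 0 < (2 : ℝ≥0∞).toReal) (A f)
  have h2 := lp.norm_rpow_eq_tsum (by norm_num : 0 < (2 : ℝ≥0∞).toReal) f
  simp only [ENNReal.toReal_ofNat] at h1 h2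
  have hle : ∀ x, ‖(A f) x‖ ^ (2 : ℝ) ≤ C ^ 2 * ‖f (e x)‖ ^ (2 : ℝ) := by
    intro x
    rw [hA, norm_mul, Real.rpow_two, Real.rpow_two, mul_pow]
    gcongr
    exact hc x
  have h3 : ∑' x, ‖(A f) x‖ ^ (2 : ℝ) ≤ C ^ 2 * ∑' x, ‖f x‖ ^ (2 : ℝ) := by
    calc ∑' x, ‖(A f) x‖ ^ (2 : ℝ) ≤ ∑' x, C ^ 2 * ‖f (e x)‖ ^ (2 : ℝ) :=
          (hsum (A f)).tsum_le_tsum hle (((hsum f).comp_injective he).mul_left _)
      _ = C ^ 2 * ∑' x, ‖f (e x)‖ ^ (2 : ℝ) := tsum_mul_left
      _ ≤ C ^ 2 * ∑' x, ‖f x‖ ^ (2 : ℝ) :=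
          mul_le_mul_of_nonneg_left
            (tsum_comp_le_tsum_of_inj (hsum f) (fun x => by positivity) he) (sq_nonneg C)
  rw [← h1, ← h2, Real.rpow_two, Real.rpow_two, ← mul_pow] at h3
  exact (abs_le_of_sq_le_sq' h3 (by positivity)).2

theorem norm_HV_sub {b : ℝ} (hb : 0 ≤ b) (V : Sd d → ℝ) (f : L2 d) :
    ‖HV b V f - ((2 * d : ℝ) : ℂ) • f‖ ≤ (2 * d + b) * ‖f‖ := by
  obtain ⟨M, hM⟩ := Pool.Agent.H4R2.AE.Exist.exists_op (ι := Sd d) id Function.injective_id
    (fun x => ((cl b (V x) : ℝ) : ℂ)) b hb (by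
      intro x
      rw [Complex.norm_real, Real.norm_eq_abs]
      exact (cl_abs b (V x)).trans (le_of_eq (abs_of_nonneg hb)))
  have hMn : ‖M f‖ ≤ b * ‖f‖ := norm_le_of Function.injective_id hb (by
      intro x
      rw [Complex.norm_real, Real.norm_eq_abs]
      exact (cl_abs b (V x)).trans (le_of_eq (abs_of_nonneg hb))) hM f
  have hS : ∀ v : Sd d, ∃ S : L2 d →L[ℂ] L2 d, (∀ f x, (S f) x = f (x + v)) ∧ ‖S f‖ ≤ ‖f‖ := by
    intro v
    obtain ⟨S, hS⟩ := Pool.Agent.H4R2.AE.Exist.exists_op (ι := Sd d) (fun x => x + v)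
      (add_left_injective v) (fun _ => 1) 1 zero_le_one (fun x => by simp)
    refine ⟨S, fun f x => by rw [hS]; simp, ?_⟩
    have := norm_le_of (add_left_injective v) zero_le_one (c := fun _ => 1) (fun x => by simp) hS f
    rwa [one_mul] at this
  choose S hS hSn using hS
  have e : HV b V f - ((2 * d : ℝ) : ℂ) • f =
      M f - ∑ i : Fin d, (S (Pi.single i 1) f + S (-Pi.single i 1) f) := by
    refine lp.ext (funext fun x => ?_)
    have e1 : (M f - ∑ i : Fin d, (S (Pi.single i 1) f + S (-Pi.single i 1) f) : L2 d) x =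
        (M f) x - ∑ i : Fin d, (f (x + Pi.single i 1) + f (x - Pi.single i 1)) := by
      rw [lp.coeFn_sub, Pi.sub_apply]
      congr 1
      rw [lp.coeFn_sum, Finset.sum_apply]
      refine Finset.sum_congr rfl fun i _ => ?_
      rw [lp.coeFn_add, Pi.add_apply, hS, hS, ← sub_eq_add_neg]
    rw [e1, hM]
    change (HV b V f) x - ((2 * d : ℝ) : ℂ) * f x = _
    rw [HV_apply]
    have h2 : ∑ i : Fin d, (2 * f x - f (x + Pi.single i 1) - f (x - Pi.single i 1)) =
        2 * d * f x - ∑ i : Fin d, (f (x + Pi.single i 1) + f (x - Pi.single i 1)) := by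
      rw [Finset.sum_add_distrib, Finset.sum_sub_distrib, Finset.sum_sub_distrib]
      simp
      ring
    rw [h2]
    push_cast
    simp only [id]
    ring
  rw [e]
  refine (norm_sub_le _ _).trans ?_
  have h3 : ‖∑ i : Fin d, (S (Pi.single i 1) f + S (-Pi.single i 1) f)‖ ≤ 2 * d * ‖f‖ := by
    refine (norm_sum_le _ _).trans ?_
    have : ∀ i ∈ (Finset.univ : Finset (Fin d)), ‖S (Pi.single i 1) f + S (-Pi.single i 1) f‖ ≤
        2 * ‖f‖ := by
      intro i _
      refine (norm_add_le _ _).trans ?_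
      have h1 := hSn (Pi.single i 1)
      have h2 := hSn (-Pi.single i 1)
      linarith
    refine (Finset.sum_le_sum this).trans (le_of_eq ?_)
    simp
    ring
  linarith

/-- the spectral measures live on `[-b, 4 d + b]` -/
theorem spm_supp {b : ℝ} (hb : 0 ≤ b) (V : Sd d → ℝ) (u : L2 d) :
    ∀ᵐ t : ℝ ∂(spm (HV_sa b V) u), |t - 2 * d| ≤ 2 * d + b :=
  gen_supp (HV_sa b V) (by positivity) (fun f => norm_HV_sub hb V f) u

/-- the normalised spectral measure of `δ_0` -/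
noncomputable def nm (b : ℝ) (V : Sd d → ℝ) : Measure ℝ :=
  (spm (HV_sa b V) (ee 0)).map fun t => (4 * d + 2 * b)⁻¹ * t + (4 * d + 2 * b)⁻¹ * b

instance (b : ℝ) (V : Sd d → ℝ) : IsFiniteMeasure (nm b V) := by
  unfold nm
  infer_instance

theorem nm_supp {b : ℝ} (hb : 0 < b) (V : Sd d → ℝ) : nm b V (Set.Icc 0 1)ᶜ = 0 := by
  unfold nm
  rw [Measure.map_apply (by fun_prop) measurableSet_Icc.compl]
  have h := spm_supp hb.le V (ee 0)
  rw [ae_iff] at h
  refine measure_mono_null (fun t ht => ?_) h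
  intro hc
  apply ht
  have hs : 0 < 4 * (d : ℝ) + 2 * b := by positivity
  rw [abs_le] at hc
  change (4 * (d : ℝ) + 2 * b)⁻¹ * t + (4 * d + 2 * b)⁻¹ * b ∈ Set.Icc (0 : ℝ) 1
  rw [← mul_add]
  constructor
  · have : 0 ≤ t + b := by linarith [hc.1]
    positivity
  · rw [inv_mul_le_iff₀ hs]
    linarith [hc.2]

theorem int_nm {b : ℝ} {V : Sd d → ℝ} (hV : ∀ x, |V x| ≤ b) (N k : ℕ) :
    ∫ t, bp N k t ∂(nm b V) = mass b N k V := by
  unfold nm
  rw [integral_map (by fun_prop) (bp_cont N k).aestronglyMeasurable, ← inner_moment hV]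
  refine integral_congr_ae (ae_of_all _ fun t => ?_)
  dsimp only
  congr 1
  rw [← mul_add, div_eq_inv_mul]

theorem hc_nm {b : ℝ} {V : Sd d → ℝ} (hV : ∀ x, |V x| ≤ b) (N : ℕ) :
    hc (nm b V) N = content b N V := by
  unfold hc content
  simp only [int_nm hV]

theorem sing_map {μ : Measure ℝ} {a c : ℝ} (ha : a ≠ 0) (h : μ ⟂ₘ volume) :
    (μ.map fun x => a * x + c) ⟂ₘ volume := by
  obtain ⟨S, hS, h1, h2⟩ := h
  have hgm : Measurable fun y : ℝ => a⁻¹ * (y + -c) := by fun_prop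
  refine ⟨(fun y : ℝ => a⁻¹ * (y + -c)) ⁻¹' S, hgm hS, ?_, ?_⟩
  · rw [Measure.map_apply (by fun_prop) (hgm hS)]
    have : (fun x : ℝ => a * x + c) ⁻¹' ((fun y : ℝ => a⁻¹ * (y + -c)) ⁻¹' S) = S := by
      ext x
      simp only [Set.mem_preimage]
      have e : a⁻¹ * (a * x + c + -c) = x := by field_simp; ring
      rw [e]
    rw [this]
    exact h1
  · have e : ((fun y : ℝ => a⁻¹ * (y + -c)) ⁻¹' S)ᶜ =
        (fun y : ℝ => y + -c) ⁻¹' ((fun z : ℝ => a⁻¹ * z) ⁻¹' Sᶜ) := rfl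
    rw [e, measure_preimage_add_right, Real.volume_preimage_mul_left (inv_ne_zero ha), h2, mul_zero]

theorem nm_sing {b : ℝ} (hb : 0 < b) (V : Sd d → ℝ) :
    nm b V ⟂ₘ volume ↔ spm (HV_sa b V) (ee 0) ⟂ₘ volume := by
  have hs : (4 * (d : ℝ) + 2 * b) ≠ 0 := by positivity
  constructor
  · intro h
    have h1 := sing_map (a := 4 * d + 2 * b) (c := -b) hs h
    unfold nm at h1
    rw [Measure.map_map (by fun_prop) (by fun_prop)] at h1
    have e : ((fun x : ℝ => (4 * d + 2 * b) * x + -b) ∘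
        fun t : ℝ => (4 * d + 2 * b)⁻¹ * t + (4 * d + 2 * b)⁻¹ * b) = id := by
      funext t
      simp only [Function.comp_apply, id]
      field_simp
      ring
    rw [e, Measure.map_id] at h1
    exact h1
  · intro h
    exact sing_map (inv_ne_zero hs) h

theorem nm_univ (b : ℝ) (V : Sd d → ℝ) : (nm b V).real Set.univ = 1 := by
  have h := norm_sq_eq (HV_sa b V) (ee 0 : L2 d)
  have h1 : ‖(ee 0 : L2 d)‖ = 1 := by
    unfold ee
    rw [lp.norm_single (by norm_num)]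
    simp
  rw [h1, one_pow] at h
  unfold nm
  rw [map_measureReal_apply (by fun_prop) MeasurableSet.univ, Set.preimage_univ]
  exact h.symm

theorem content_le_one {b : ℝ} (hb : 0 < b) {V : Sd d → ℝ} (hV : ∀ x, |V x| ≤ b) (N : ℕ) :
    content b N V ≤ 1 := by
  rw [← hc_nm hV]
  refine (hc_anti (nm_supp hb V) (Nat.zero_le N)).trans (le_of_eq ?_)
  unfold hc
  simp only [zero_add, range_one, sum_singleton]
  have : ∀ x, bp 0 0 x = 1 := fun x => by simp [bp]
  simp only [this]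
  rw [integral_const, smul_eq_mul, mul_one, nm_univ]
  simp

theorem content_nonneg (b : ℝ) (N : ℕ) (V : Sd d → ℝ) : 0 ≤ content b N V :=
  sum_nonneg fun _ _ => Real.sqrt_nonneg _

theorem content_anti {b : ℝ} (hb : 0 < b) {V : Sd d → ℝ} (hV : ∀ x, |V x| ≤ b) :
    Antitone fun N => content b N V := by
  intro N N' h
  dsimp only
  rw [← hc_nm hV, ← hc_nm hV]
  exact hc_anti (nm_supp hb V) h

end Pool.Agent.Q62.HB

namespace Pool.Agent.Q62.HB

open Pool.Agent.TH980.IM (Sd)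

variable {d : ℕ}

/-! ### finite range -/

theorem step_congr {b : ℝ} {ω ω' u u' : Sd d → ℝ} {n : ℕ}
    (h : ∀ x : Sd d, (∀ i, |x i| ≤ ((n + 1 : ℕ) : ℤ)) → ω x = ω' x ∧ u x = u' x) (x : Sd d)
    (hx : ∀ i, |x i| ≤ (n : ℤ)) : step b ω u x = step b ω' u' x := by
  have h0 := h x fun i => (hx i).trans (by push_cast; linarith)
  have h1 : ∀ i : Fin d, u (x + Pi.single i 1) = u' (x + Pi.single i 1) := fun i =>
    (h _ fun j => by
      rw [Pi.add_apply]
      have h2 : |(Pi.single i (1 : ℤ) : Sd d) j| ≤ 1 := by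
        by_cases hj : j = i
        · subst hj; simp
        · rw [Pi.single_eq_of_ne hj]; simp
      have := abs_add_le (x j) ((Pi.single i (1 : ℤ) : Sd d) j)
      have := hx j
      push_cast
      linarith).2
  have h2 : ∀ i : Fin d, u (x - Pi.single i 1) = u' (x - Pi.single i 1) := fun i =>
    (h _ fun j => by
      rw [Pi.sub_apply]
      have h2 : |(Pi.single i (1 : ℤ) : Sd d) j| ≤ 1 := by
        by_cases hj : j = i
        · subst hj; simp
        · rw [Pi.single_eq_of_ne hj]; simp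
      have := abs_sub (x j) ((Pi.single i (1 : ℤ) : Sd d) j)
      have := hx j
      push_cast
      linarith).2
  unfold step
  simp only [h0.1, h0.2, h1, h2]

theorem iter_congr {b : ℝ} {ω ω' u u' : Sd d → ℝ} : ∀ (k n : ℕ),
    (∀ x : Sd d, (∀ i, |x i| ≤ ((n + k : ℕ) : ℤ)) → ω x = ω' x ∧ u x = u' x) → ∀ x : Sd d,
    (∀ i, |x i| ≤ (n : ℤ)) → ((step b ω)^[k] u) x = ((step b ω')^[k] u') x := by
  intro k
  induction k with
  | zero =>
    intro n h x hx
    exact (h x (by simpa using hx)).2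
  | succ k ih =>
    intro n h x hx
    rw [Function.iterate_succ_apply', Function.iterate_succ_apply']
    refine step_congr (n := n) (fun y hy => ⟨?_, ?_⟩) x hx
    · refine (h y fun i => (hy i).trans ?_).1
      push_cast
      linarith
    · refine ih (n + 1) (fun z hz => h z fun i => (hz i).trans ?_) y hy
      push_cast
      linarith

theorem coiter_congr {b : ℝ} {ω ω' u u' : Sd d → ℝ} : ∀ (k n : ℕ),
    (∀ x : Sd d, (∀ i, |x i| ≤ ((n + k : ℕ) : ℤ)) → ω x = ω' x ∧ u x = u' x) → ∀ x : Sd d,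
    (∀ i, |x i| ≤ (n : ℤ)) → ((costep b ω)^[k] u) x = ((costep b ω')^[k] u') x := by
  intro k
  induction k with
  | zero =>
    intro n h x hx
    exact (h x (by simpa using hx)).2
  | succ k ih =>
    intro n h x hx
    rw [Function.iterate_succ_apply', Function.iterate_succ_apply']
    have h1 : ∀ y : Sd d, (∀ i, |y i| ≤ ((n + 1 : ℕ) : ℤ)) →
        ((costep b ω)^[k] u) y = ((costep b ω')^[k] u') y := fun y hy =>
      ih (n + 1) (fun z hz => h z fun i => (hz i).trans (by push_cast; linarith)) y hy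
    unfold costep
    have h2 := step_congr (b := b) (n := n) (ω := ω) (ω' := ω') (u := (costep b ω)^[k] u)
      (u' := (costep b ω')^[k] u') (fun y hy => ⟨(h y fun i => (hy i).trans (by
        push_cast; linarith)).1, h1 y hy⟩) x hx
    have h3 := h1 x fun i => (hx i).trans (by push_cast; linarith)
    unfold costep at h2 h3
    rw [h2, h3]

/-- the content only depends on the potential in the cube of radius `N` -/
theorem content_congr {b : ℝ} {ω ω' : Sd d → ℝ} {N : ℕ}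
    (h : ∀ x : Sd d, (∀ i, |x i| ≤ (N : ℤ)) → ω x = ω' x) : content b N ω = content b N ω' := by
  unfold content mass
  refine Finset.sum_congr rfl fun k hk => ?_
  have hkN : k ≤ N := by rw [Finset.mem_range] at hk; omega
  congr 3
  refine iter_congr k 0 (fun x hx => ⟨h x fun i => (hx i).trans ?_, ?_⟩) 0 (fun i => by simp)
  · push_cast
    have : (k : ℤ) ≤ N := by exact_mod_cast hkN
    linarith
  · refine coiter_congr (N - k) k (fun y hy => ⟨h y fun i => (hy i).trans ?_, rfl⟩) x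
      (fun i => (hx i).trans (by push_cast; linarith))
    have : k + (N - k) = N := by omega
    rw [this]

end Pool.Agent.Q62.HB
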